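import Pool.Agent.H43.MP.Defs
import Pool.Agent.H91.EHA.SwK2

/-!
# MIDP Blk: from the average over all intervals (`HUX`, project PSI, helper88) to the blocks and the twists

Step 1 (`cls_blk`).  Fix `d ≤ L^B`, `c`, and call the block `i` bad if `|∑_{m ∈ blk H i, m ≡ c (d)} Λ(m) - M| > H/L^A'`, `M = H/φ(d)` or `0`.  For `x = iH - 1 + j`,
`0 ≤ j ≤ δ`, `δ = H/(8 L^{A'+1})`, the sum over `(x, x+H]` differs from the one over the block by at most `2 δ log(4N) ≤ H/(2L^A')`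
(`Λ(m) ≤ log m`, `log(4N) ≤ 2L`), so its deviation is `> H/(2L^A')`.  The intervals of `x` are disjoint for different `i` (`δ < H`), all `x` are in
`[N/2 - 2H, 3N + H]`, which is contained in `(N1, 2N1] ∪ (N, 2N] ∪ (2N, 4N]`, `N1 = ⌊N/4⌋`, together with `(2N1, 4N1]`: apply `HUX θ'` at the four
values `N/4, N/2, N, 2N` with a large exponent: `#bad · δ · (H/(2L^A'))^2 ≤ 4 · 2N H^2/(log (N/4))^{A''}`.
Step 2.  `∑_{m ∈ blk} Λ(m) ee(-(a m/r)) = ∑_{c < r} ee(-(a c/r)) ∑_{m ≡ c (r)} Λ(m)`, and `∑_{c < r, (c,r)=1} ee(-(a c/r)) = μ(r)` for `(a, r) = 1`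
(`Pool.Agent.H91.EHA.ramS_eq`, `ramS r a = μ(r)`); so if no `(r, c)`, `r ≤ L^B`, `c < r`, is bad with `A' = A + B` the deviation is `≤ r H/L^{A'} ≤ H/L^A`.  Union over the
at most `L^{2B} + ..` pairs `(r, c)`.
-/

set_option autoImplicit false

namespace Pool.Agent.H43.MP

open Finset
open Pool.Agent.H91.PK (ee)
open Pool.Agent.H91.EHA (Lam hR lamR ramS)
open Pool.Agent.H35.W (pb)

/-- primes in almost all intervals of length `N^θ` in classes (in the mean square) -/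
def HUX (θ : ℝ) : Prop :=
  ∀ A B : ℕ, ∃ N0 : ℕ, ∀ N : ℕ, N0 ≤ N → ∀ H : ℕ, (N : ℝ) ^ θ ≤ H → (H : ℝ) ≤ (N : ℝ) ^ (1 / 3 : ℝ) →
    ∀ d c : ℕ, 1 ≤ d → (d : ℝ) ≤ Real.log N ^ B →
      ∑ x ∈ Ioc N (2 * N), ((∑ n ∈ (Ioc x (x + H)).filter (fun n => n % d = c % d), Lam n)
        - (if Nat.Coprime c d then (H : ℝ) / d.totient else 0)) ^ 2 ≤ N * (H : ℝ) ^ 2 / Real.log N ^ A

private theorem Blk_Lam_nonneg (n : ℕ) : 0 ≤ Lam n := ArithmeticFunction.vonMangoldt_nonneg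

private theorem Blk_Lam_le {n X : ℕ} (hn : n ≤ X) : Lam n ≤ Real.log X := by
  have h1 : Lam n ≤ Real.log n := ArithmeticFunction.vonMangoldt_le_log
  rcases Nat.eq_zero_or_pos n with h0 | h0
  · rw [h0] at h1 ⊢
    refine h1.trans ?_
    simp only [Nat.cast_zero, Real.log_zero]
    exact Real.log_natCast_nonneg X
  · refine h1.trans (Real.log_le_log (by exact_mod_cast h0) (by exact_mod_cast hn))

/-- shifting the window by `j` -/
private theorem Blk_shift (f : ℕ → ℝ) (hf : ∀ n, 0 ≤ f n) {K : ℝ} (a j H X : ℕ) (ha : 1 ≤ a)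
    (hX : a + H + j ≤ X) (hK : ∀ n, n ≤ X → f n ≤ K) :
    |∑ n ∈ Ioc (a - 1 + j) (a - 1 + j + H), f n - ∑ n ∈ Ico a (a + H), f n| ≤ j * K := by
  have e1 : Ioc (a - 1 + j) (a - 1 + j + H) = Ico (a + j) (a + j + H) := by
    ext n
    simp only [mem_Ioc, mem_Ico]
    omega
  have s1 : ∑ n ∈ Ico a (a + H), f n + ∑ n ∈ Ico (a + H) (a + H + j), f n =
      ∑ n ∈ Ico a (a + H + j), f n := Finset.sum_Ico_consecutive f (by omega) (by omega)
  have s2 : ∑ n ∈ Ico a (a + j), f n + ∑ n ∈ Ico (a + j) (a + j + H), f n =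
      ∑ n ∈ Ico a (a + j + H), f n := Finset.sum_Ico_consecutive f (by omega) (by omega)
  have e2 : a + j + H = a + H + j := by omega
  rw [e2] at s2
  rw [e1, e2]
  have b1 : ∑ n ∈ Ico (a + H) (a + H + j), f n ≤ j * K := by
    calc ∑ n ∈ Ico (a + H) (a + H + j), f n ≤ ∑ _n ∈ Ico (a + H) (a + H + j), K := by
          refine Finset.sum_le_sum fun n hn => hK n ?_
          rw [mem_Ico] at hn
          omega
      _ = j * K := by
          rw [Finset.sum_const, Nat.card_Ico, nsmul_eq_mul]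
          congr 2
          omega
  have b2 : ∑ n ∈ Ico a (a + j), f n ≤ j * K := by
    calc ∑ n ∈ Ico a (a + j), f n ≤ ∑ _n ∈ Ico a (a + j), K := by
          refine Finset.sum_le_sum fun n hn => hK n ?_
          rw [mem_Ico] at hn
          omega
      _ = j * K := by
          rw [Finset.sum_const, Nat.card_Ico, nsmul_eq_mul]
          congr 2
          omega
  have c1 : 0 ≤ ∑ n ∈ Ico (a + H) (a + H + j), f n := Finset.sum_nonneg fun n _ => hf n
  have c2 : 0 ≤ ∑ n ∈ Ico a (a + j), f n := Finset.sum_nonneg fun n _ => hf n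
  rw [abs_le]
  constructor <;> linarith

/-- the four dyadic ranges -/
private theorem Blk_cover (F : ℕ → ℝ) (K : ℕ) :
    ∑ x ∈ Ioc K (16 * K), F x = ∑ x ∈ Ioc K (2 * K), F x + ∑ x ∈ Ioc (2 * K) (2 * (2 * K)), F x +
      ∑ x ∈ Ioc (4 * K) (2 * (4 * K)), F x + ∑ x ∈ Ioc (8 * K) (2 * (8 * K)), F x := by
  have h1 := Finset.sum_Ioc_consecutive F (show K ≤ 2 * K by omega) (show 2 * K ≤ 4 * K by omega)
  have h2 := Finset.sum_Ioc_consecutive F (show K ≤ 4 * K by omega) (show 4 * K ≤ 8 * K by omega)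
  have h3 := Finset.sum_Ioc_consecutive F (show K ≤ 8 * K by omega) (show 8 * K ≤ 16 * K by omega)
  have e1 : 2 * (2 * K) = 4 * K := by omega
  have e2 : 2 * (4 * K) = 8 * K := by omega
  have e3 : 2 * (8 * K) = 16 * K := by omega
  rw [e1, e2, e3]
  linarith

/-- the number of bad blocks from the mean square over the windows -/
private theorem Blk_count (G : ℕ → ℝ) (hG : ∀ x, 0 ≤ G x) (bad : Finset ℕ) (H δ K : ℕ) {g : ℝ}
    (hδ : δ < H) (hi : ∀ i ∈ bad, 1 ≤ i * H ∧ K + 1 ≤ i * H - 1 ∧ i * H - 1 + δ ≤ 16 * K)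
    (hb : ∀ i ∈ bad, ∀ j ≤ δ, g ≤ G (i * H - 1 + j)) :
    bad.card * ((δ + 1 : ℕ) * g) ≤ ∑ x ∈ Ioc K (16 * K), G x := by
  classical
  have hinj : Set.InjOn (fun t : ℕ × ℕ => t.1 * H - 1 + t.2)
      ((bad ×ˢ range (δ + 1) : Finset (ℕ × ℕ)) : Set (ℕ × ℕ)) := by
    intro s hs t ht hst
    rw [Finset.mem_coe, Finset.mem_product, Finset.mem_range] at hs ht
    have hst' : s.1 * H - 1 + s.2 = t.1 * H - 1 + t.2 := hst
    have h1 := (hi s.1 hs.1).1
    have h2 := (hi t.1 ht.1).1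
    have h3 : s.1 * H + s.2 = t.1 * H + t.2 := by omega
    have h4 : s.2 < H := by omega
    have h5 : t.2 < H := by omega
    have h6 : s.1 = t.1 := by
      have e1 : (s.1 * H + s.2) / H = s.1 := by
        rw [mul_comm, Nat.mul_add_div (by omega), Nat.div_eq_of_lt h4, add_zero]
      have e2 : (t.1 * H + t.2) / H = t.1 := by
        rw [mul_comm, Nat.mul_add_div (by omega), Nat.div_eq_of_lt h5, add_zero]
      rw [← e1, h3, e2]
    have h7 : s.2 = t.2 := by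
      rw [h6] at h3
      omega
    exact Prod.ext h6 h7
  have hsub : (bad ×ˢ range (δ + 1)).image (fun t : ℕ × ℕ => t.1 * H - 1 + t.2) ⊆
      Ioc K (16 * K) := by
    intro x hx
    rw [Finset.mem_image] at hx
    obtain ⟨t, ht, rfl⟩ := hx
    rw [Finset.mem_product, Finset.mem_range] at ht
    obtain ⟨_, h2, h3⟩ := hi t.1 ht.1
    rw [mem_Ioc]
    omega
  calc (bad.card : ℝ) * ((δ + 1 : ℕ) * g) = ∑ _t ∈ bad ×ˢ range (δ + 1), g := by
        rw [Finset.sum_const, Finset.card_product, Finset.card_range, nsmul_eq_mul]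
        push_cast
        ring
    _ ≤ ∑ t ∈ bad ×ˢ range (δ + 1), G (t.1 * H - 1 + t.2) := by
        refine Finset.sum_le_sum fun t ht => ?_
        rw [Finset.mem_product, Finset.mem_range] at ht
        exact hb t.1 ht.1 t.2 (by omega)
    _ = ∑ x ∈ (bad ×ˢ range (δ + 1)).image (fun t : ℕ × ℕ => t.1 * H - 1 + t.2), G x := by
        rw [Finset.sum_image hinj]
    _ ≤ ∑ x ∈ Ioc K (16 * K), G x :=
        Finset.sum_le_sum_of_subset_of_nonneg hsub fun x _ _ => hG x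

private theorem Blk_ev_H1 {θ θ' : ℝ} (h0 : 0 < θ') (h1 : θ' < θ) :
    ∀ᶠ N : ℕ in Filter.atTop, (2 * (N : ℝ)) ^ θ' ≤ Hn θ N := by
  have h2 : Filter.Tendsto (fun N : ℕ => (N : ℝ) ^ (θ - θ')) Filter.atTop Filter.atTop :=
    (tendsto_rpow_atTop (by linarith : 0 < θ - θ')).comp tendsto_natCast_atTop_atTop
  have h3 : Filter.Tendsto (fun N : ℕ => (N : ℝ) ^ θ) Filter.atTop Filter.atTop :=
    (tendsto_rpow_atTop (by linarith : 0 < θ)).comp tendsto_natCast_atTop_atTop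
  filter_upwards [h2.eventually_ge_atTop (2 * 2 ^ θ'), h3.eventually_ge_atTop 2,
    Filter.eventually_ge_atTop 1] with N hN1 hN2 hN3
  have hN0 : (0 : ℝ) < N := by exact_mod_cast hN3
  have h4 : (N : ℝ) ^ θ = N ^ θ' * N ^ (θ - θ') := by
    rw [← Real.rpow_add hN0]
    congr 1
    ring
  have h5 : (N : ℝ) ^ θ - 1 ≤ Hn θ N := by
    unfold Hn
    have := Nat.lt_floor_add_one ((N : ℝ) ^ θ)
    linarith
  have h6 : (2 * (N : ℝ)) ^ θ' = 2 ^ θ' * N ^ θ' := Real.mul_rpow (by norm_num) hN0.le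
  have h7 : 0 < (N : ℝ) ^ θ' := Real.rpow_pos_of_pos hN0 _
  have h8 : (N : ℝ) ^ θ' * (2 * 2 ^ θ') ≤ N ^ θ := by
    rw [h4]
    exact mul_le_mul_of_nonneg_left hN1 h7.le
  rw [h6]
  nlinarith

private theorem Blk_ev_H2 {θ : ℝ} (h0 : 0 < θ) (h2 : θ ≤ 1 / 4) :
    ∀ᶠ N : ℕ in Filter.atTop, 1 ≤ Hn θ N ∧ 16 * (Hn θ N + 20) ≤ N := by
  have h3 : Filter.Tendsto (fun N : ℕ => (N : ℝ) ^ (3 / 4 : ℝ)) Filter.atTop Filter.atTop :=
    (tendsto_rpow_atTop (by norm_num)).comp tendsto_natCast_atTop_atTop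
  filter_upwards [h3.eventually_ge_atTop 32, Filter.eventually_ge_atTop 640] with N hN1 hN2
  have hN1' : (1 : ℝ) ≤ N := by exact_mod_cast (by omega : 1 ≤ N)
  have hN0 : (0 : ℝ) < N := by linarith
  have h4 : (Hn θ N : ℝ) ≤ (N : ℝ) ^ θ := Nat.floor_le (by positivity)
  have h5 : (N : ℝ) ^ θ ≤ (N : ℝ) ^ (1 / 4 : ℝ) := Real.rpow_le_rpow_of_exponent_le hN1' h2
  have h6 : (N : ℝ) = (N : ℝ) ^ (1 / 4 : ℝ) * (N : ℝ) ^ (3 / 4 : ℝ) := by
    rw [← Real.rpow_add hN0]
    norm_num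
  have h7 : 0 < (N : ℝ) ^ (1 / 4 : ℝ) := Real.rpow_pos_of_pos hN0 _
  have h8 : 32 * (N : ℝ) ^ (1 / 4 : ℝ) ≤ N := by
    calc 32 * (N : ℝ) ^ (1 / 4 : ℝ) = (N : ℝ) ^ (1 / 4 : ℝ) * 32 := mul_comm _ _
      _ ≤ (N : ℝ) ^ (1 / 4 : ℝ) * (N : ℝ) ^ (3 / 4 : ℝ) := mul_le_mul_of_nonneg_left hN1 h7.le
      _ = N := h6.symm
  constructor
  · unfold Hn
    rw [Nat.one_le_floor_iff]
    exact Real.one_le_rpow hN1' h0.le
  · have h9 : 16 * ((Hn θ N : ℝ) + 20) ≤ N := by
      have : (640 : ℝ) ≤ N := by exact_mod_cast hN2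
      linarith
    exact_mod_cast h9

private theorem Blk_ev_log (K : ℝ) : ∀ᶠ N : ℕ in Filter.atTop, K ≤ Real.log N :=
  (Real.tendsto_log_atTop.comp tendsto_natCast_atTop_atTop).eventually_ge_atTop K

/-- the final inequality of the count -/
private theorem Blk_arith {E D N H l : ℝ} {A A' : ℕ} (hE : 0 ≤ E) (hH : 0 < H)
    (hN : 0 ≤ N) (hl : 128 * 2 ^ (A + 3 * A' + 2) ≤ l)
    (hD : H / (8 * l ^ (A' + 1)) ≤ D)
    (h : E * (D * (H / (2 * l ^ A')) ^ 2) ≤
      4 * N * H ^ 2 * 2 ^ (A + 3 * A' + 2) / l ^ (A + 3 * A' + 2)) :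
    E ≤ N / H / l ^ A := by
  have hl0 : 0 < l := lt_of_lt_of_le (by positivity) hl
  have h1 : E * (H / (8 * l ^ (A' + 1)) * (H / (2 * l ^ A')) ^ 2) ≤
      4 * N * H ^ 2 * 2 ^ (A + 3 * A' + 2) / l ^ (A + 3 * A' + 2) := by
    refine le_trans (mul_le_mul_of_nonneg_left ?_ hE) h
    exact mul_le_mul_of_nonneg_right hD (by positivity)
  have e1 : E * (H / (8 * l ^ (A' + 1)) * (H / (2 * l ^ A')) ^ 2) =
      (E * H) * (H ^ 2 / (32 * l ^ (3 * A' + 1))) := by
    have : l ^ (3 * A' + 1) = l ^ (A' + 1) * (l ^ A') ^ 2 := by ring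
    rw [this]
    field_simp
    ring
  have e2 : 4 * N * H ^ 2 * 2 ^ (A + 3 * A' + 2) / l ^ (A + 3 * A' + 2) =
      (N / l ^ A * (128 * 2 ^ (A + 3 * A' + 2) / l)) * (H ^ 2 / (32 * l ^ (3 * A' + 1))) := by
    have : l ^ (A + 3 * A' + 2) = l ^ A * l * l ^ (3 * A' + 1) := by ring
    rw [this]
    field_simp
    ring
  rw [e1, e2] at h1
  have h2 : E * H ≤ N / l ^ A * (128 * 2 ^ (A + 3 * A' + 2) / l) :=
    le_of_mul_le_mul_right h1 (by positivity)
  have h3 : 128 * 2 ^ (A + 3 * A' + 2) / l ≤ 1 := by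
    rw [div_le_one hl0]
    exact hl
  have h4 : E * H ≤ N / l ^ A := by
    refine h2.trans ?_
    exact mul_le_of_le_one_right (by positivity) h3
  rw [div_div, mul_comm H, ← div_div, le_div_iff₀ hH]
  exact h4

private theorem Blk_third {θ : ℝ} {N K : ℕ} (h2 : θ ≤ 1 / 4) (hN : 4096 ≤ N) (hK : N ≤ 8 * K) :
    (Hn θ N : ℝ) ≤ (K : ℝ) ^ (1 / 3 : ℝ) := by
  have hNr : (4096 : ℝ) ≤ N := by exact_mod_cast hN
  have hN0 : (0 : ℝ) < N := by linarith
  have a1 : (Hn θ N : ℝ) ≤ (N : ℝ) ^ θ := Nat.floor_le (by positivity)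
  have a2 : (N : ℝ) ^ θ ≤ (N : ℝ) ^ (1 / 4 : ℝ) := Real.rpow_le_rpow_of_exponent_le (by linarith) h2
  have a3 : (N : ℝ) / 8 ≤ K := by
    have h5 : (N : ℝ) ≤ 8 * K := by exact_mod_cast hK
    linarith
  have a4 : ((N : ℝ) / 8) ^ (1 / 3 : ℝ) ≤ (K : ℝ) ^ (1 / 3 : ℝ) :=
    Real.rpow_le_rpow (by positivity) a3 (by norm_num)
  have a5 : ((N : ℝ) / 8) ^ (1 / 3 : ℝ) = (N : ℝ) ^ (1 / 3 : ℝ) / 2 := by
    rw [Real.div_rpow hN0.le (by norm_num)]
    congr 1
    rw [show (8 : ℝ) = 2 ^ (3 : ℝ) by norm_num, ← Real.rpow_mul (by norm_num)]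
    norm_num
  have a6 : (N : ℝ) ^ (1 / 3 : ℝ) = (N : ℝ) ^ (1 / 4 : ℝ) * (N : ℝ) ^ (1 / 12 : ℝ) := by
    rw [← Real.rpow_add hN0]
    norm_num
  have a7 : (2 : ℝ) ≤ (N : ℝ) ^ (1 / 12 : ℝ) := by
    have h6 : (4096 : ℝ) ^ (1 / 12 : ℝ) = 2 := by
      rw [show (4096 : ℝ) = 2 ^ (12 : ℝ) by norm_num, ← Real.rpow_mul (by norm_num)]
      norm_num
    rw [← h6]
    exact Real.rpow_le_rpow (by norm_num) hNr (by norm_num)
  have a8 : (0 : ℝ) ≤ (N : ℝ) ^ (1 / 4 : ℝ) := by positivity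
  have a9 : (N : ℝ) ^ (1 / 4 : ℝ) * 2 ≤ (N : ℝ) ^ (1 / 4 : ℝ) * (N : ℝ) ^ (1 / 12 : ℝ) :=
    mul_le_mul_of_nonneg_left a7 a8
  linarith

/-- one application of `HUX` -/
private theorem Blk_app {N K H d A B : ℕ} {S : ℝ} (hlog : Real.log N / 2 ≤ Real.log K)
    (hlog2 : 4 ≤ Real.log N)
    (hd : (d : ℝ) ≤ Real.log N ^ B)
    (hS : (d : ℝ) ≤ Real.log K ^ (2 * B) → S ≤ K * (H : ℝ) ^ 2 / Real.log K ^ A) :
    S ≤ K * (H : ℝ) ^ 2 * 2 ^ A / Real.log N ^ A := by
  have h1 : 2 ≤ Real.log K := by linarith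
  have h2 : (d : ℝ) ≤ Real.log K ^ (2 * B) := by
    calc (d : ℝ) ≤ Real.log N ^ B := hd
      _ ≤ (Real.log K * Real.log K) ^ B := by
          refine pow_le_pow_left₀ (by linarith) ?_ B
          nlinarith
      _ = Real.log K ^ (2 * B) := by
          rw [← pow_two, ← pow_mul]
  refine (hS h2).trans ?_
  have h3 : 0 < Real.log N := by linarith
  have h4 : (Real.log N / 2) ^ A ≤ Real.log K ^ A := pow_le_pow_left₀ (by linarith) hlog A
  have h5 : K * (H : ℝ) ^ 2 * 2 ^ A / Real.log N ^ A = K * (H : ℝ) ^ 2 / (Real.log N / 2) ^ A := by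
    rw [div_pow]
    field_simp
  rw [h5]
  exact div_le_div_of_nonneg_left (by positivity) (by positivity) h4

open Classical in
theorem cls_blk (θ θ' : ℝ) (h0 : 0 < θ') (h1 : θ' < θ) (h2 : θ ≤ 1 / 4) (hx : HUX θ') (A A' B : ℕ) :
    ∃ N0 : ℕ, ∀ N : ℕ, N0 ≤ N → ∀ d c : ℕ, 1 ≤ d → (d : ℝ) ≤ Real.log N ^ B →
      (((idx N (Hn θ N)).filter (fun i => (Hn θ N : ℝ) / Real.log N ^ A' <
        |(∑ n ∈ (blk (Hn θ N) i).filter (fun n => n % d = c % d), Lam n)
          - (if Nat.Coprime c d then (Hn θ N : ℝ) / d.totient else 0)|)).card : ℝ)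
      ≤ (N : ℝ) / (Hn θ N) / Real.log N ^ A := by
  obtain ⟨N1, hN1⟩ := hx (A + 3 * A' + 2) (2 * B)
  have hev : ∀ᶠ N : ℕ in Filter.atTop, 4 * (N1 + 1024) ≤ N := Filter.eventually_ge_atTop _
  obtain ⟨N0, hN0⟩ := Filter.eventually_atTop.mp (((Blk_ev_H1 h0 h1).and
    (Blk_ev_H2 (h0.trans h1) h2)).and ((Blk_ev_log (128 * 2 ^ (A + 3 * A' + 2))).and hev))
  refine ⟨N0, fun N hN d c hd1 hd => ?_⟩
  obtain ⟨⟨hH1, hHpos, hH2⟩, hL, hNN⟩ := hN0 N hN
  set H : ℕ := Hn θ N with hHdef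
  set K : ℕ := N / 4 with hKdef
  set M : ℝ := (if Nat.Coprime c d then (H : ℝ) / d.totient else 0) with hM
  have hp2 : (1 : ℝ) ≤ 2 ^ (A + 3 * A' + 2) := one_le_pow₀ (by norm_num)
  have hL128 : 128 ≤ Real.log N := by linarith
  have hL0 : 0 < Real.log N := by linarith
  have hNpos : 0 < N := by omega
  have hNR : (0 : ℝ) < N := by exact_mod_cast hNpos
  have hHR : (0 : ℝ) < H := by exact_mod_cast hHpos
  -- the logarithms
  have hlogK : ∀ K' : ℕ, K ≤ K' → Real.log N / 2 ≤ Real.log K' := by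
    intro K' hK'
    have h3 : (N : ℝ) / 8 ≤ K' := by
      have h4 : N ≤ 8 * K' := by omega
      have h5 : (N : ℝ) ≤ 8 * K' := by exact_mod_cast h4
      linarith
    have h6 : Real.log ((N : ℝ) / 8) ≤ Real.log K' := Real.log_le_log (by positivity) h3
    rw [Real.log_div hNR.ne' (by norm_num)] at h6
    have h7 : Real.log 8 ≤ 8 := by
      have := Real.log_le_sub_one_of_pos (by norm_num : (0 : ℝ) < 8)
      linarith
    linarith
  -- the mean squares
  set G : ℕ → ℝ := fun x => ((∑ n ∈ (Ioc x (x + H)).filter (fun n => n % d = c % d), Lam n)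
        - M) ^ 2 with hG
  have happ : ∀ K' : ℕ, K ≤ K' → K' ≤ 2 * N → ∑ x ∈ Ioc K' (2 * K'), G x ≤
      K' * (H : ℝ) ^ 2 * 2 ^ (A + 3 * A' + 2) / Real.log N ^ (A + 3 * A' + 2) := by
    intro K' hK1 hK2
    refine Blk_app (d := d) (B := B) (hlogK K' hK1) (by linarith) hd fun hd' => ?_
    have hb1 : 4096 ≤ N := le_trans (le_trans (by norm_num) (Nat.mul_le_mul_left 4 (Nat.le_add_left 1024 N1))) hNN
    have hb2 : N ≤ 8 * K' := by omega
    have hb3 : (H : ℝ) ≤ (K' : ℝ) ^ (1 / 3 : ℝ) := Blk_third h2 hb1 hb2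
    refine hN1 K' (by omega) H ?_ hb3 d c hd1 hd'
    refine le_trans ?_ hH1
    refine Real.rpow_le_rpow (Nat.cast_nonneg _) ?_ h0.le
    exact_mod_cast hK2
  have hsum : ∑ x ∈ Ioc K (16 * K), G x ≤
      4 * N * (H : ℝ) ^ 2 * 2 ^ (A + 3 * A' + 2) / Real.log N ^ (A + 3 * A' + 2) := by
    rw [Blk_cover G K]
    have a1 := happ K le_rfl (by omega)
    have a2 := happ (2 * K) (by omega) (by omega)
    have a3 := happ (4 * K) (by omega) (by omega)
    have a4 := happ (8 * K) (by omega) (by omega)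
    have hK4 : 4 * (K : ℝ) ≤ N := by
      have : 4 * K ≤ N := by omega
      exact_mod_cast this
    have hq : 0 ≤ (H : ℝ) ^ 2 * 2 ^ (A + 3 * A' + 2) / Real.log N ^ (A + 3 * A' + 2) := by
      positivity
    have e0 : ∀ z : ℝ, z * (H : ℝ) ^ 2 * 2 ^ (A + 3 * A' + 2) / Real.log N ^ (A + 3 * A' + 2) =
        z * ((H : ℝ) ^ 2 * 2 ^ (A + 3 * A' + 2) / Real.log N ^ (A + 3 * A' + 2)) := by
      intro z
      ring
    rw [e0] at a1 a2 a3 a4 ⊢
    push_cast at a2 a3 a4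
    have h5 : 15 * (K : ℝ) * ((H : ℝ) ^ 2 * 2 ^ (A + 3 * A' + 2) /
        Real.log N ^ (A + 3 * A' + 2)) ≤ 4 * N * ((H : ℝ) ^ 2 * 2 ^ (A + 3 * A' + 2) /
        Real.log N ^ (A + 3 * A' + 2)) := mul_le_mul_of_nonneg_right (by linarith) hq
    linarith
  -- the shifts
  set δ : ℕ := ⌊(H : ℝ) / (8 * Real.log N ^ (A' + 1))⌋₊ with hδ
  have hLp : ∀ n : ℕ, 1 ≤ Real.log N ^ n := fun n => one_le_pow₀ (by linarith)
  have hδ1 : (δ : ℝ) ≤ (H : ℝ) / (8 * Real.log N ^ (A' + 1)) := Nat.floor_le (by positivity)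
  have hδ2 : (H : ℝ) / (8 * Real.log N ^ (A' + 1)) ≤ ((δ + 1 : ℕ) : ℝ) := by
    push_cast
    exact (Nat.lt_floor_add_one _).le
  have hδH : δ < H := by
    have h3 : (H : ℝ) / (8 * Real.log N ^ (A' + 1)) < H := by
      rw [div_lt_iff₀ (by positivity)]
      have := hLp (A' + 1)
      nlinarith
    have h4 : (δ : ℝ) < H := lt_of_le_of_lt hδ1 h3
    exact_mod_cast h4
  set bad : Finset ℕ := (idx N H).filter (fun i => (H : ℝ) / Real.log N ^ A' <
        |(∑ n ∈ (blk H i).filter (fun n => n % d = c % d), Lam n) - M|) with hbad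
  have hrange : ∀ i ∈ idx N H, 1 ≤ i * H ∧ K + 1 ≤ i * H - 1 ∧ i * H - 1 + δ ≤ 16 * K ∧
      i * H + H + δ ≤ 4 * N := by
    intro i hi
    unfold idx at hi
    rw [mem_Icc] at hi
    have h3 : i * H ≤ 3 * N := by
      have := Nat.mul_le_mul_right H hi.2
      exact this.trans (Nat.div_mul_le_self _ _)
    have h4 : N < 2 * (i * H) + 2 * H := by
      have h5 : N / (2 * H) * (2 * H) ≤ i * (2 * H) := Nat.mul_le_mul_right _ hi.1
      have h6 : N < N / (2 * H) * (2 * H) + 2 * H := by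
        have := Nat.lt_div_mul_add (a := N) (b := 2 * H) (by omega)
        exact this
      have h7 : i * (2 * H) = 2 * (i * H) := by ring
      omega
    refine ⟨?_, ?_, ?_, ?_⟩ <;> omega
  have hlog4 : Real.log ((4 * N : ℕ) : ℝ) ≤ 2 * Real.log N := by
    push_cast
    rw [Real.log_mul (by norm_num) hNR.ne']
    have h7 : Real.log 4 ≤ 4 := by
      have := Real.log_le_sub_one_of_pos (by norm_num : (0 : ℝ) < 4)
      linarith
    linarith
  have hcount := Blk_count G (fun x => sq_nonneg _) bad H δ K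
    (g := ((H : ℝ) / (2 * Real.log N ^ A')) ^ 2) hδH
    (fun i hi => by
      have := hrange i (Finset.mem_filter.mp hi).1
      exact ⟨this.1, this.2.1, this.2.2.1⟩)
    (fun i hi j hj => by
      obtain ⟨hi1, hi2⟩ := Finset.mem_filter.mp hi
      obtain ⟨r1, _, _, r4⟩ := hrange i hi1
      have hs := Blk_shift (fun n => if n % d = c % d then Lam n else 0)
        (fun n => by
          split_ifs
          · exact Blk_Lam_nonneg n
          · exact le_rfl) (K := Real.log ((4 * N : ℕ) : ℝ)) (i * H) j H (4 * N) r1 (by omega)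
        (fun n hn => by
          split_ifs
          · exact Blk_Lam_le hn
          · exact Real.log_natCast_nonneg _)
      rw [← Finset.sum_filter, ← Finset.sum_filter] at hs
      have hblk : blk H i = Ico (i * H) (i * H + H) := by
        unfold blk
        congr 1
        ring
      rw [hblk] at hi2
      set T := ∑ n ∈ (Ioc (i * H - 1 + j) (i * H - 1 + j + H)).filter (fun n => n % d = c % d),
        Lam n
      set S := ∑ n ∈ (Ico (i * H) (i * H + H)).filter (fun n => n % d = c % d), Lam n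
      have hj' : (j : ℝ) ≤ (H : ℝ) / (8 * Real.log N ^ (A' + 1)) :=
        le_trans (by exact_mod_cast hj) hδ1
      have h3 : |T - S| ≤ (H : ℝ) / (4 * Real.log N ^ A') := by
        refine hs.trans ?_
        calc (j : ℝ) * Real.log ((4 * N : ℕ) : ℝ) ≤
            ((H : ℝ) / (8 * Real.log N ^ (A' + 1))) * (2 * Real.log N) :=
              mul_le_mul hj' hlog4 (Real.log_natCast_nonneg _) (by positivity)
          _ = (H : ℝ) / (4 * Real.log N ^ A') := by
              rw [pow_succ]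
              field_simp
              norm_num
      have h4 : |S - M| ≤ |T - M| + |T - S| := by
        have e : S - M = (T - M) - (T - S) := by ring
        rw [e]
        exact abs_sub _ _
      have h5 : (H : ℝ) / (2 * Real.log N ^ A') ≤ |T - M| := by
        have e1 : (H : ℝ) / (4 * Real.log N ^ A') = (H : ℝ) / Real.log N ^ A' / 4 := by
          rw [mul_comm 4, ← div_div]
        have e2 : (H : ℝ) / (2 * Real.log N ^ A') = (H : ℝ) / Real.log N ^ A' / 2 := by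
          rw [mul_comm 2, ← div_div]
        rw [e1] at h3
        rw [e2]
        have h6 : 0 < (H : ℝ) / Real.log N ^ A' := by positivity
        linarith
      have h6 := pow_le_pow_left₀ (by positivity) h5 2
      rw [sq_abs] at h6
      exact h6)
  exact Blk_arith (Nat.cast_nonneg _) hHR hNR.le hL hδ2 (hcount.trans hsum)

/-- the representative of `m` in `[1, r]` -/
private def Blk_kap (r m : ℕ) : ℕ := if m % r = 0 then r else m % r

private theorem Blk_kap_mem {r : ℕ} (hr : 1 ≤ r) (m : ℕ) : Blk_kap r m ∈ Icc 1 r := by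
  unfold Blk_kap
  have := Nat.mod_lt m (by omega : 0 < r)
  rw [mem_Icc]
  split_ifs <;> omega

private theorem Blk_kap_eq {r : ℕ} {m c : ℕ} (hc : c ∈ Icc 1 r) :
    Blk_kap r m = c ↔ m % r = c % r := by
  rw [mem_Icc] at hc
  unfold Blk_kap
  rcases Nat.lt_or_ge c r with h | h
  · rw [Nat.mod_eq_of_lt h]
    split_ifs with h1
    · omega
    · rfl
  · have h2 : c = r := by omega
    rw [h2, Nat.mod_self]
    have := Nat.mod_lt m (by omega : 0 < r)
    split_ifs with h1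
    · simp [h1]
    · constructor
      · intro h3
        omega
      · intro h3
        exact absurd h3 h1

private theorem Blk_ee_int (t : ℝ) (k : ℤ) : ee (t + k) = ee t := by
  unfold Pool.Agent.H91.PK.ee
  have e : 2 * Real.pi * ((t + k : ℝ) : ℂ) * Complex.I =
      2 * Real.pi * (t : ℂ) * Complex.I + k * (2 * Real.pi * Complex.I) := by
    push_cast
    ring
  rw [e, Complex.exp_add, Complex.exp_int_mul_two_pi_mul_I, mul_one]

private theorem Blk_ee_norm (t : ℝ) : ‖ee t‖ = 1 := by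
  unfold Pool.Agent.H91.PK.ee
  have e : 2 * Real.pi * (t : ℂ) * Complex.I = ((2 * Real.pi * t : ℝ) : ℂ) * Complex.I := by
    push_cast
    ring
  rw [e, Complex.norm_exp_ofReal_mul_I]

private theorem Blk_ee_neg (t : ℝ) : ee (-t) = (starRingEnd ℂ) (ee t) := by
  unfold Pool.Agent.H91.PK.ee
  rw [← Complex.exp_conj]
  congr 1
  simp only [map_mul, Complex.conj_ofReal, Complex.conj_I, map_ofNat]
  push_cast
  ring

private theorem Blk_ee_mod {r m c : ℕ} (a : ℕ) (hr : 1 ≤ r) (h : m % r = c % r) :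
    ee (-((a : ℝ) * m / r)) = ee (-((a : ℝ) * c / r)) := by
  have hr0 : (r : ℝ) ≠ 0 := by exact_mod_cast (by omega : r ≠ 0)
  have h1 : (r : ℤ) ∣ (m : ℤ) - c := by
    have : c ≡ m [MOD r] := h.symm
    exact (Nat.modEq_iff_dvd.mp this)
  obtain ⟨k, hk⟩ := h1
  have h2 : (m : ℝ) = c + r * k := by
    have : ((m : ℤ) : ℝ) = ((c + r * k : ℤ) : ℝ) := by
      congr 1
      linarith
    push_cast at this
    exact this
  have h3 : -((a : ℝ) * m / r) = -((a : ℝ) * c / r) + ((-(a * k) : ℤ) : ℝ) := by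
    rw [h2]
    push_cast
    field_simp
    ring
  rw [h3, Blk_ee_int]

/-- the Ramanujan sum -/
private theorem Blk_ram {a r : ℕ} (hr : 1 ≤ r) (har : Nat.Coprime a r) :
    ∑ c ∈ (Icc 1 r).filter (fun c => Nat.Coprime c r), ee (-((a : ℝ) * c / r)) =
      ((ArithmeticFunction.moebius r : ℝ) : ℂ) := by
  have h1 := Pool.Agent.H91.EHA.ramS_eq r a hr
  have h2 : ramS r a = (ArithmeticFunction.moebius r : ℝ) := by
    unfold Pool.Agent.H91.EHA.ramS
    rw [Nat.Coprime.gcd_eq_one har.symm]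
    simp
  rw [h2] at h1
  have h3 := congrArg (starRingEnd ℂ) h1
  rw [Complex.conj_ofReal, map_sum] at h3
  rw [h3]
  refine Finset.sum_congr rfl fun c _ => ?_
  rw [Blk_ee_neg]

/-- the twist of the block, from the classes -/
private theorem Blk_twist {H i a r : ℕ} {ε : ℝ} (hr : 1 ≤ r) (har : Nat.Coprime a r)
    (h : ∀ c ∈ Icc 1 r, |(∑ n ∈ (blk H i).filter (fun n => n % r = c % r), Lam n)
          - (if Nat.Coprime c r then (H : ℝ) / r.totient else 0)| ≤ ε) :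
    ‖∑ m ∈ blk H i, ((Lam m : ℝ) : ℂ) * ee (-((a : ℝ) * m / r))
      - (((ArithmeticFunction.moebius r : ℝ) / (r.totient : ℝ) * H : ℝ) : ℂ)‖ ≤ r * ε := by
  have h1 : ∑ m ∈ blk H i, ((Lam m : ℝ) : ℂ) * ee (-((a : ℝ) * m / r)) =
      ∑ c ∈ Icc 1 r, ee (-((a : ℝ) * c / r)) *
        ((∑ n ∈ (blk H i).filter (fun n => n % r = c % r), Lam n : ℝ) : ℂ) := by
    rw [← Finset.sum_fiberwise_of_maps_to (s := blk H i) (t := Icc 1 r) (g := Blk_kap r)
      (fun m _ => Blk_kap_mem hr m)]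
    refine Finset.sum_congr rfl fun c hc => ?_
    have e1 : (blk H i).filter (fun m => Blk_kap r m = c) =
        (blk H i).filter (fun n => n % r = c % r) := by
      ext m
      simp only [Finset.mem_filter, Blk_kap_eq hc]
    rw [e1]
    push_cast
    rw [Finset.mul_sum]
    refine Finset.sum_congr rfl fun m hm => ?_
    rw [Blk_ee_mod a hr (Finset.mem_filter.mp hm).2]
    ring
  have h2 : (((ArithmeticFunction.moebius r : ℝ) / (r.totient : ℝ) * H : ℝ) : ℂ) =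
      ∑ c ∈ Icc 1 r, ee (-((a : ℝ) * c / r)) *
        ((if Nat.Coprime c r then (H : ℝ) / r.totient else 0 : ℝ) : ℂ) := by
    have e1 : ∑ c ∈ Icc 1 r, ee (-((a : ℝ) * c / r)) *
        ((if Nat.Coprime c r then (H : ℝ) / r.totient else 0 : ℝ) : ℂ) =
        ∑ c ∈ (Icc 1 r).filter (fun c => Nat.Coprime c r), ee (-((a : ℝ) * c / r)) *
          (((H : ℝ) / r.totient : ℝ) : ℂ) := by
      rw [Finset.sum_filter]
      refine Finset.sum_congr rfl fun c _ => ?_
      split_ifs <;> simp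
    rw [e1, ← Finset.sum_mul, Blk_ram hr har]
    push_cast
    ring
  rw [h1, h2, ← Finset.sum_sub_distrib]
  calc ‖∑ c ∈ Icc 1 r, (ee (-((a : ℝ) * c / r)) *
        ((∑ n ∈ (blk H i).filter (fun n => n % r = c % r), Lam n : ℝ) : ℂ) -
        ee (-((a : ℝ) * c / r)) *
        ((if Nat.Coprime c r then (H : ℝ) / r.totient else 0 : ℝ) : ℂ))‖
      ≤ ∑ _c ∈ Icc 1 r, ε := by
        refine norm_sum_le_of_le _ fun c hc => ?_
        rw [← mul_sub, norm_mul, Blk_ee_norm, one_mul, ← Complex.ofReal_sub, Complex.norm_real,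
          Real.norm_eq_abs]
        exact h c hc
    _ = r * ε := by
        rw [Finset.sum_const, Nat.card_Icc, nsmul_eq_mul]
        congr 2

theorem badP_card (θ θ' : ℝ) (h0 : 0 < θ') (h1 : θ' < θ) (h2 : θ ≤ 1 / 4) (hx : HUX θ') (A B : ℕ) :
    ∃ N0 : ℕ, ∀ N : ℕ, N0 ≤ N →
      ((badP N (Hn θ N) A B).card : ℝ) ≤ (N : ℝ) / (Hn θ N) / Real.log N ^ A := by
  classical
  obtain ⟨N0, hN0⟩ := cls_blk θ θ' h0 h1 h2 hx (A + 2 * B) (A + B) B
  obtain ⟨N1, hN1⟩ := Filter.eventually_atTop.mp ((Blk_ev_log 1).and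
    (Blk_ev_H2 (h0.trans h1) h2))
  refine ⟨max N0 N1, fun N hN => ?_⟩
  obtain ⟨hL, hHpos, _⟩ := hN1 N ((le_max_right _ _).trans hN)
  have hcls := hN0 N ((le_max_left _ _).trans hN)
  have hL0 : 0 < Real.log N := by linarith
  have hHR : (0 : ℝ) < Hn θ N := by exact_mod_cast hHpos
  set H := Hn θ N with hH
  set R : ℕ := ⌊Real.log N ^ B⌋₊ with hR
  have hRle : (R : ℝ) ≤ Real.log N ^ B := Nat.floor_le (by positivity)
  let bad : ℕ → ℕ → Finset ℕ := fun d c => (idx N H).filter (fun i =>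
    (H : ℝ) / Real.log N ^ (A + B) <
        |(∑ n ∈ (blk H i).filter (fun n => n % d = c % d), Lam n)
          - (if Nat.Coprime c d then (H : ℝ) / d.totient else 0)|)
  have hsub : badP N H A B ⊆ (Icc 1 R ×ˢ Icc 1 R).biUnion (fun t => bad t.1 t.2) := by
    intro i hi
    unfold badP at hi
    rw [Finset.mem_filter] at hi
    obtain ⟨hi1, r, a, hr1, hrB, har, hlt⟩ := hi
    have hrR : r ≤ R := Nat.le_floor hrB
    by_contra hcon
    apply absurd hlt
    rw [not_lt]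
    have h3 := Blk_twist (H := H) (i := i) (ε := (H : ℝ) / Real.log N ^ (A + B)) hr1 har
      (fun c hc => by
        by_contra hc2
        rw [not_le] at hc2
        apply hcon
        rw [Finset.mem_biUnion]
        rw [mem_Icc] at hc
        refine ⟨(r, c), ?_, ?_⟩
        · rw [Finset.mem_product, mem_Icc, mem_Icc]
          exact ⟨⟨hr1, hrR⟩, hc.1, hc.2.trans hrR⟩
        · exact Finset.mem_filter.mpr ⟨hi1, hc2⟩)
    refine h3.trans ?_
    calc (r : ℝ) * ((H : ℝ) / Real.log N ^ (A + B)) ≤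
        Real.log N ^ B * ((H : ℝ) / Real.log N ^ (A + B)) :=
          mul_le_mul_of_nonneg_right hrB (by positivity)
      _ = (H : ℝ) / Real.log N ^ A := by
          rw [pow_add]
          field_simp
  have hc1 : ∀ t ∈ Icc 1 R ×ˢ Icc 1 R, ((bad t.1 t.2).card : ℝ) ≤
      (N : ℝ) / H / Real.log N ^ (A + 2 * B) := by
    intro t ht
    rw [Finset.mem_product, mem_Icc, mem_Icc] at ht
    have h3 : (t.1 : ℝ) ≤ Real.log N ^ B := le_trans (by exact_mod_cast ht.1.2) hRle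
    have h4 := hcls t.1 t.2 ht.1.1 h3
    refine le_trans (le_of_eq ?_) h4
    congr 2
  calc ((badP N H A B).card : ℝ) ≤
      (((Icc 1 R ×ˢ Icc 1 R).biUnion (fun t => bad t.1 t.2)).card : ℝ) := by
        exact_mod_cast Finset.card_le_card hsub
    _ ≤ ∑ t ∈ Icc 1 R ×ˢ Icc 1 R, ((bad t.1 t.2).card : ℝ) := by
        exact_mod_cast Finset.card_biUnion_le
    _ ≤ ∑ _t ∈ Icc 1 R ×ˢ Icc 1 R, (N : ℝ) / H / Real.log N ^ (A + 2 * B) :=
        Finset.sum_le_sum hc1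
    _ = (R : ℝ) * R * ((N : ℝ) / H / Real.log N ^ (A + 2 * B)) := by
        rw [Finset.sum_const, Finset.card_product, Nat.card_Icc, nsmul_eq_mul]
        push_cast
        simp
    _ ≤ Real.log N ^ B * Real.log N ^ B * ((N : ℝ) / H / Real.log N ^ (A + 2 * B)) := by
        refine mul_le_mul_of_nonneg_right ?_ (by positivity)
        exact mul_le_mul hRle hRle (Nat.cast_nonneg _) (by positivity)
    _ = (N : ℝ) / H / Real.log N ^ A := by
        rw [pow_add, two_mul, pow_add]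
        field_simp

end Pool.Agent.H43.MP
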