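import Pool.Agent.H43.MP.Defs
import Pool.Agent.H92.EH.TestFun

/-!
# MIDP ClsVar: variance of a sequence in the classes modulo the primes of `(P, 2P]`

`Z(p,b) - Z/p = (1/p) ∑_{l=1}^{p-1} S(l/p) ee(-b l/p)`, `S(α) = ∑_{m ∈ blk} a_m ee(m α)` (orthogonality of the additive characters mod `p`,
`Pool.Agent.H92.EH.sum_complete`), so `∑_{b mod p} |Z(p,b) - Z/p|^2 = (1/p) ∑_{l=1}^{p-1} |S(l/p)|^2` (Parseval on `ℤ/p`; the inequality `≤` is enough).
The large sieve `Pool.Agent.H91.PK.additive_ls` with `2P` for `R` (restricted to the prime moduli `r = p ∈ pb P`, all `b` with `1 ≤ b < p` are coprime to `p`;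
`blk H i = Ico (iH) ((i+1)H)` is the interval `Ioc K0 (K0 + H)` with `K0 = i H - 1` if `i H ≥ 1`; for `i H = 0` shift: the element `0` can be treated by
a translation `m ↦ m + 1` of the sequence, which changes `S` by a unimodular factor) gives the bound `((2P)^2 + π H) ∑ |a|^2`.
-/

set_option autoImplicit false

namespace Pool.Agent.H43.MP

open Finset
open Pool.Agent.H91.PK (ee)
open Pool.Agent.H91.EHA (Lam hR lamR ramS)
open Pool.Agent.H35.W (pb)

private theorem ClsVar_ee (t : ℝ) : ee t = Pool.Agent.H92.EH.e t := by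
  unfold Pool.Agent.H91.PK.ee Pool.Agent.H92.EH.e
  congr 1
  push_cast
  ring

private theorem ClsVar_mod {p b m : ℕ} (hb : b < p) : m ≡ b [MOD p] ↔ m % p = b := by
  unfold Nat.ModEq
  rw [Nat.mod_eq_of_lt hb]

/-- sums over the classes -/
private theorem ClsVar_fiber (p : ℕ) (hp : 0 < p) (s : Finset ℕ) (a : ℕ → ℂ) (f : ℕ → ℂ)
    (hf : ∀ m, f (m % p) = f m) :
    ∑ b ∈ range p, (∑ m ∈ s.filter (fun m => m ≡ b [MOD p]), a m) * f b = ∑ m ∈ s, a m * f m := by
  have h1 : ∀ b ∈ range p, (∑ m ∈ s.filter (fun m => m ≡ b [MOD p]), a m) * f b =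
      ∑ m ∈ s, if m % p = b then a m * f m else 0 := by
    intro b hb
    rw [sum_mul, sum_filter]
    refine sum_congr rfl fun m _ => ?_
    have hb' := mem_range.1 hb
    by_cases h : m % p = b
    · rw [if_pos ((ClsVar_mod hb').2 h), if_pos h, ← h, hf]
    · rw [if_neg (fun h' => h ((ClsVar_mod hb').1 h')), if_neg h]
  rw [sum_congr rfl h1, sum_comm]
  refine sum_congr rfl fun m _ => ?_
  rw [sum_ite_eq, if_pos (mem_range.2 (Nat.mod_lt _ hp))]

/-- the variance in the classes modulo a prime -/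
private theorem ClsVar_prime (p H i : ℕ) (hp : 0 < p) (a : ℕ → ℂ) :
    (p : ℝ) * ∑ b ∈ range p, ‖Zc a H i p b - (1 / (p : ℂ)) * ∑ m ∈ blk H i, a m‖ ^ 2 =
      ∑ l ∈ (range p).erase 0, ‖∑ m ∈ blk H i, a m * ee ((m : ℝ) * l / p)‖ ^ 2 := by
  have hp0 : (p : ℂ) ≠ 0 := by exact_mod_cast hp.ne'
  have h1 := Pool.Agent.H92.EH.parseval_le p hp (range p)
    (fun b => Zc a H i p b - (1 / (p : ℂ)) * ∑ m ∈ blk H i, a m) (fun b => (b : ℤ)) (by
      intro x hx y hy hne hd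
      have hx' := mem_range.1 hx
      have hy' := mem_range.1 hy
      obtain ⟨k, hk⟩ := hd
      have hk0 : k = 0 := by
        by_contra hk0
        rcases lt_or_gt_of_ne hk0 with h | h
        · have : (p : ℤ) * k ≤ -p := by nlinarith
          omega
        · have : (p : ℤ) ≤ p * k := by nlinarith
          omega
      rw [hk0, mul_zero] at hk
      omega)
  rw [← h1]
  have h2 : ∀ l : ℕ, ∑ b ∈ range p, (Zc a H i p b - (1 / (p : ℂ)) * ∑ m ∈ blk H i, a m) *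
      Pool.Agent.H92.EH.e (((b : ℤ) : ℝ) * ((l : ℝ) / p)) =
      (∑ m ∈ blk H i, a m * ee ((m : ℝ) * l / p)) -
        (1 / (p : ℂ)) * (∑ m ∈ blk H i, a m) * ∑ b ∈ range p, Pool.Agent.H92.EH.e (((l : ℤ) : ℝ) * ((b : ℝ) / p)) := by
    intro l
    simp_rw [sub_mul]
    rw [sum_sub_distrib]
    congr 1
    · have h3 := ClsVar_fiber p hp (blk H i) a (fun m => Pool.Agent.H92.EH.e (((m : ℤ) : ℝ) * ((l : ℝ) / p))) (by
        intro m
        have h4 := Pool.Agent.H92.EH.e_mod p m hp (l : ℤ)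
        have e1 : (((m % p : ℕ) : ℤ) : ℝ) * ((l : ℝ) / p) = ((l : ℤ) : ℝ) * (((m % p : ℕ) : ℝ) / p) := by
          rw [Int.cast_natCast, Int.cast_natCast]
          ring
        have e2 : ((m : ℤ) : ℝ) * ((l : ℝ) / p) = ((l : ℤ) : ℝ) * ((m : ℝ) / p) := by
          push_cast
          ring
        beta_reduce
        rw [e1, e2]
        exact h4)
      unfold Zc
      rw [h3]
      refine sum_congr rfl fun m _ => ?_
      rw [ClsVar_ee]
      congr 2
      push_cast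
      ring
    · rw [Finset.mul_sum (range p)]
      refine sum_congr rfl fun b _ => ?_
      congr 2
      push_cast
      ring
  simp_rw [h2]
  have h0 : (0 : ℕ) ∈ range p := mem_range.2 hp
  rw [← add_sum_erase (range p) _ h0]
  have h5 : ‖(∑ m ∈ blk H i, a m * ee ((m : ℝ) * ((0 : ℕ) : ℝ) / p)) -
        (1 / (p : ℂ)) * (∑ m ∈ blk H i, a m) * ∑ b ∈ range p, Pool.Agent.H92.EH.e ((((0 : ℕ) : ℤ) : ℝ) * ((b : ℝ) / p))‖ ^ 2 = 0 := by
    have e1 : ∀ m : ℕ, ee ((m : ℝ) * ((0 : ℕ) : ℝ) / p) = 1 := by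
      intro m
      rw [ClsVar_ee]
      simp [Pool.Agent.H92.EH.e_zero]
    have e2 : ∀ b : ℕ, Pool.Agent.H92.EH.e ((((0 : ℕ) : ℤ) : ℝ) * ((b : ℝ) / p)) = 1 := by
      intro b
      simp [Pool.Agent.H92.EH.e_zero]
    simp_rw [e1, e2]
    rw [sum_const, card_range]
    simp only [mul_one, nsmul_eq_mul]
    have e3 : (1 / (p : ℂ)) * (∑ m ∈ blk H i, a m) * p = ∑ m ∈ blk H i, a m := by
      field_simp
    rw [e3, sub_self, norm_zero]
    norm_num
  rw [h5, zero_add]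
  refine sum_congr rfl fun l hl => ?_
  have hl1 := mem_erase.1 hl
  have hl2 := mem_range.1 hl1.2
  rw [Pool.Agent.H92.EH.sum_complete p hp, if_neg, mul_zero, sub_zero]
  intro hd
  have h6 : p ∣ l := by exact_mod_cast hd
  have h7 := Nat.le_of_dvd (Nat.pos_of_ne_zero hl1.1) h6
  omega

theorem cls_var (P H i : ℕ) (a : ℕ → ℂ) (hP : 1 ≤ P) (hi : 1 ≤ i) (hH : 1 ≤ H) :
    ∑ p ∈ pb P, (p : ℝ) * ∑ b ∈ range p,
        ‖Zc a H i p b - (1 / (p : ℂ)) * ∑ m ∈ blk H i, a m‖ ^ 2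
      ≤ (4 * (P : ℝ) ^ 2 + Real.pi * H) * ∑ m ∈ blk H i, ‖a m‖ ^ 2 := by
  have hiH : 1 ≤ i * H := Nat.one_le_iff_ne_zero.2 (Nat.mul_ne_zero (by omega) (by omega))
  have hblk : blk H i = Ioc (i * H - 1) (i * H - 1 + H) := by
    unfold blk
    ext m
    rw [mem_Ico, mem_Ioc]
    have e1 : (i + 1) * H = i * H + H := by ring
    rw [e1]
    omega
  have h1 := Pool.Agent.H91.PK.additive_ls (2 * P) (i * H - 1) H a
  rw [← hblk] at h1
  have e2 : (((2 * P : ℕ) : ℝ)) ^ 2 = 4 * (P : ℝ) ^ 2 := by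
    push_cast
    ring
  rw [e2] at h1
  refine le_trans ?_ h1
  have hsub : pb P ⊆ Icc 1 (2 * P) := by
    intro p hp
    have hp' := mem_filter.1 hp
    have hp2 := mem_Ioc.1 hp'.1
    exact mem_Icc.2 ⟨hp'.2.one_lt.le, hp2.2⟩
  refine le_trans ?_ (sum_le_sum_of_subset_of_nonneg hsub fun r _ _ => sum_nonneg fun b _ => by positivity)
  refine sum_le_sum fun p hp => ?_
  have hp' := mem_filter.1 hp
  rw [ClsVar_prime p H i hp'.2.pos a]
  refine sum_le_sum_of_subset_of_nonneg ?_ fun _ _ _ => by positivity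
  intro l hl
  have hl1 := mem_erase.1 hl
  have hl2 := mem_range.1 hl1.2
  refine mem_filter.2 ⟨mem_Icc.2 ⟨Nat.pos_of_ne_zero hl1.1, hl2.le⟩, ?_⟩
  exact (Nat.coprime_of_lt_prime (Nat.pos_of_ne_zero hl1.1).ne' hl2 hp'.2).symm

end Pool.Agent.H43.MP
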