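import Pool.Agent.H43.MP.PPw

/-!
# MIDP Cnt: from the weighted sum to the number of solutions

`n ∈ (N, 2N]`, `n ∉ ppE N P H`, `i = n/H`, `1 ≤ H ≤ N/2`.  In `rr P H i n = ∑_{m ∈ blk} Λ(m) ∑_{p ∈ pb P, p | 2n-m} Λ((2n-m)/p)` all non zero terms have `m` prime and `q = (2n-m)/p`
prime.  `x = n - m` (an integer) satisfies `|x| ≤ H` (both in the same block), `n - x = m` is prime (`φ(m) + 1 = m`, `Nat.totient_prime`), `n + x = 2n - m = p q`: `x ∈ sols P H n`.
`m ↦ x` is injective; for fixed `m` there are at most 2 primes `p` with `p | 2n - m` and `(2n-m)/p` prime (`2n - m` is a product of two primes);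
`Λ(m) ≤ log(3N) ≤ 2 log N`, `Λ(q) ≤ log (4N) ≤ 2 log N`.  So `rr ≤ 8 (log N)^2 (sols P H n).ncard` (`sols` is finite: `|x| ≤ H`).
-/

set_option autoImplicit false

namespace Pool.Agent.H43.MP

open Finset
open Pool.Agent.H91.PK (ee)
open Pool.Agent.H91.EHA (Lam hR lamR ramS)
open Pool.Agent.H35.W (pb)

private theorem cnt_lam0 (m : ℕ) : 0 ≤ Lam m := by
  unfold Pool.Agent.H91.EHA.Lam
  exact ArithmeticFunction.vonMangoldt_nonneg

private theorem cnt_lam {N m : ℕ} (hN : 1 ≤ N) (h : m ≤ N ^ 2) : Lam m ≤ 2 * Real.log N := by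
  have hN1 : (1 : ℝ) ≤ N := by exact_mod_cast hN
  have hl : 0 ≤ Real.log N := Real.log_nonneg hN1
  rcases Nat.eq_zero_or_pos m with hm | hm
  · subst hm
    unfold Pool.Agent.H91.EHA.Lam
    simp only [ArithmeticFunction.map_zero]
    positivity
  · have h2 : Lam m ≤ Real.log m := by
      unfold Pool.Agent.H91.EHA.Lam
      exact ArithmeticFunction.vonMangoldt_le_log
    have h3 : Real.log m ≤ Real.log ((N : ℝ) ^ 2) :=
      Real.log_le_log (by exact_mod_cast hm) (by exact_mod_cast h)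
    rw [Real.log_pow] at h3
    push_cast at h3
    linarith

/-- at most two primes `p` divide `M` with a prime quotient -/
private theorem cnt_two (S : Finset ℕ) (M : ℕ) (hS : ∀ p ∈ S, p.Prime ∧ p ∣ M ∧ (M / p).Prime) :
    S.card ≤ 2 := by
  rcases S.eq_empty_or_nonempty with h | ⟨p0, hp0⟩
  · rw [h]
    simp
  · obtain ⟨h1, h2, h3⟩ := hS p0 hp0
    have hM : p0 * (M / p0) = M := Nat.mul_div_cancel' h2
    have hsub : S ⊆ {p0, M / p0} := by
      intro p hp
      obtain ⟨g1, g2, -⟩ := hS p hp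
      rw [← hM] at g2
      rw [mem_insert, mem_singleton]
      rcases (Nat.Prime.dvd_mul g1).1 g2 with h | h
      · exact Or.inl ((Nat.prime_dvd_prime_iff_eq g1 h1).1 h)
      · exact Or.inr ((Nat.prime_dvd_prime_iff_eq g1 h3).1 h)
    exact (Finset.card_le_card hsub).trans Finset.card_le_two

theorem rr_le (N P H n : ℕ) (hN : 4 ≤ N) (hH : 1 ≤ H) (hHN : 2 * H ≤ N) (hn : n ∈ Ioc N (2 * N))
    (hpp : n ∉ ppE N P H) :
    rr P H (n / H) n ≤ 8 * Real.log N ^ 2 * ((sols P H n).ncard : ℝ) := by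
  classical
  rw [mem_Ioc] at hn
  have hpp' : ∀ m ∈ blk H (n / H), (Lam m ≠ 0 → m.Prime) ∧
      ∀ p ∈ pb P, p ∣ 2 * n - m → Lam ((2 * n - m) / p) ≠ 0 → ((2 * n - m) / p).Prime := by
    intro m hm
    unfold ppE at hpp
    rw [mem_filter, mem_Ioc] at hpp
    push Not at hpp
    have h := hpp hn m hm
    refine ⟨fun h1 => ?_, fun p hp hd h1 => ?_⟩
    · exact h.1 h1
    · exact h.2 p hp hd h1
  have hblk : ∀ m ∈ blk H (n / H), n < m + H ∧ m < n + H := by
    intro m hm
    unfold blk at hm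
    rw [mem_Ico] at hm
    have e1 : n / H * H ≤ n := Nat.div_mul_le_self n H
    have e2 : n < (n / H + 1) * H := by
      have := Nat.lt_div_mul_add (a := n) (b := H) (by omega)
      rw [Nat.add_mul, Nat.one_mul]
      exact this
    rw [Nat.add_mul, Nat.one_mul] at e2 hm
    omega
  have hL0 : 0 ≤ Real.log N := Real.log_nonneg (by exact_mod_cast (by omega : 1 ≤ N))
  have hNN : 4 * N ≤ N ^ 2 := by nlinarith
  -- the good `m`
  set G : Finset ℕ := (blk H (n / H)).filter (fun m => m.Prime ∧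
    ∃ p ∈ pb P, p ∣ 2 * n - m ∧ ((2 * n - m) / p).Prime) with hG
  -- bound of `FF`
  have hFF : ∀ m ∈ blk H (n / H), FF P (2 * n - m) ≤ 4 * Real.log N := by
    intro m hm
    unfold FF
    set S := ((pb P).filter (fun p => p ∣ 2 * n - m)).filter
      (fun p => ((2 * n - m) / p).Prime) with hS
    have h1 : ∑ p ∈ (pb P).filter (fun p => p ∣ 2 * n - m), Lam ((2 * n - m) / p) =
        ∑ p ∈ S, Lam ((2 * n - m) / p) := by
      rw [hS]
      refine (Finset.sum_filter_of_ne fun p hp h2 => ?_).symm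
      rw [mem_filter] at hp
      exact (hpp' m hm).2 p hp.1 hp.2 h2
    rw [h1]
    have h2 : S.card ≤ 2 := by
      refine cnt_two S (2 * n - m) fun p hp => ?_
      rw [hS, mem_filter, mem_filter] at hp
      have hpP : p.Prime := by
        have := hp.1.1
        unfold Pool.Agent.H35.W.pb at this
        exact (mem_filter.1 this).2
      exact ⟨hpP, hp.1.2, hp.2⟩
    have h3 : ∑ p ∈ S, Lam ((2 * n - m) / p) ≤ ∑ _p ∈ S, 2 * Real.log N := by
      refine Finset.sum_le_sum fun p _ => cnt_lam (by omega) ?_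
      have := Nat.div_le_self (2 * n - m) p
      omega
    rw [sum_const, nsmul_eq_mul] at h3
    have h4 : (S.card : ℝ) ≤ 2 := by exact_mod_cast h2
    nlinarith
  have hFF0 : ∀ m, 0 ≤ FF P m := by
    intro m
    unfold FF
    exact Finset.sum_nonneg fun p _ => cnt_lam0 _
  have hsum : rr P H (n / H) n ≤ 8 * Real.log N ^ 2 * (G.card : ℝ) := by
    unfold rr
    have h1 : ∑ m ∈ blk H (n / H), Lam m * FF P (2 * n - m) =
        ∑ m ∈ G, Lam m * FF P (2 * n - m) := by
      rw [hG, sum_filter]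
      refine Finset.sum_congr rfl fun m hm => ?_
      split_ifs with h
      · rfl
      · by_contra h2
        have h3 : Lam m ≠ 0 := left_ne_zero_of_mul h2
        have h4 : FF P (2 * n - m) ≠ 0 := right_ne_zero_of_mul h2
        refine h ⟨(hpp' m hm).1 h3, ?_⟩
        unfold FF at h4
        obtain ⟨p, hp, hp0⟩ := Finset.exists_ne_zero_of_sum_ne_zero h4
        rw [mem_filter] at hp
        exact ⟨p, hp.1, hp.2, (hpp' m hm).2 p hp.1 hp.2 hp0⟩
    rw [h1]
    have h2 : ∑ m ∈ G, Lam m * FF P (2 * n - m) ≤ ∑ _m ∈ G, 8 * Real.log N ^ 2 := by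
      refine Finset.sum_le_sum fun m hm => ?_
      have hm' : m ∈ blk H (n / H) := (mem_filter.1 (hG ▸ hm)).1
      have hb := hblk m hm'
      have e1 : Lam m ≤ 2 * Real.log N := cnt_lam (by omega) (by omega)
      have e2 := hFF m hm'
      have e3 := cnt_lam0 m
      have e4 := hFF0 (2 * n - m)
      calc Lam m * FF P (2 * n - m) ≤ (2 * Real.log N) * (4 * Real.log N) :=
            mul_le_mul e1 e2 e4 (by positivity)
        _ = 8 * Real.log N ^ 2 := by ring
    rw [sum_const, nsmul_eq_mul] at h2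
    linarith
  -- the good `m` give solutions
  have hfin : (sols P H n).Finite := by
    refine (Set.finite_Icc (-(H : ℤ)) (H : ℤ)).subset fun x hx => ?_
    exact abs_le.1 hx.1
  have hcard : G.card ≤ (sols P H n).ncard := by
    have h1 : (G.image (fun m : ℕ => (n : ℤ) - (m : ℤ))).card = G.card := by
      refine Finset.card_image_of_injective _ fun a b hab => ?_
      have : (n : ℤ) - (a : ℤ) = (n : ℤ) - (b : ℤ) := hab
      omega
    rw [← h1, ← Set.ncard_coe_finset]
    refine Set.ncard_le_ncard ?_ hfin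
    intro x hx
    rw [Finset.mem_coe, mem_image] at hx
    obtain ⟨m, hm, rfl⟩ := hx
    rw [hG, mem_filter] at hm
    obtain ⟨hm1, hm2, p, hp, hpd, hq⟩ := hm
    have hb := hblk m hm1
    have hpp2 : P < p ∧ p ≤ 2 * P ∧ p.Prime := by
      unfold Pool.Agent.H35.W.pb at hp
      rw [mem_filter, mem_Ioc] at hp
      exact ⟨hp.1.1, hp.1.2, hp.2⟩
    have e1 : (n : ℤ) - ((n : ℤ) - (m : ℤ)) = (m : ℤ) := by ring
    have e2 : (n : ℤ) + ((n : ℤ) - (m : ℤ)) = ((2 * n - m : ℕ) : ℤ) := by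
      rw [Nat.cast_sub (by omega)]
      push_cast
      ring
    refine ⟨?_, ?_, ?_, ?_, ?_⟩
    · rw [abs_le]
      constructor <;> omega
    · rw [e1]
      exact_mod_cast hm2.pos
    · rw [e2]
      exact_mod_cast (by omega : 0 < 2 * n - m)
    · rw [e1, Int.toNat_natCast, Nat.totient_prime hm2, Nat.cast_sub hm2.one_le]
      push_cast
      ring
    · refine ⟨p, (2 * n - m) / p, hpp2.2.2, hq, hpp2.1, hpp2.2.1, ?_⟩
      rw [e2, ← Nat.cast_mul, Nat.mul_div_cancel' hpd]
  have hcR : (G.card : ℝ) ≤ ((sols P H n).ncard : ℝ) := by exact_mod_cast hcard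
  exact hsum.trans (mul_le_mul_of_nonneg_left hcR (by positivity))

end Pool.Agent.H43.MP
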