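import Pool.Agent.H43.MP.Defs

/-!
# MIDP Conv: the error term of the additive convolution on a block

`conv_l2`.  Put `U(α) = ∑_{m ∈ I} u(m) ee(-α m)`, `V(α) = ∑_{m ∈ Y} v(m) ee(-α m)`.  Then `U V = ∑_{k ∈ K'} c(k) ee(-α k)`,
`c(k) = ∑_{m ∈ I, m ≤ k, k - m ∈ Y} u(m) v(k-m)`, `K'` = image of `I ×ˢ Y` under `+` (`c(k) = 0` for `k ∉ K'`).  Parseval
(`Pool.Agent.H91.PK.LSa_parseval` with `c = 0`, on `[0,1]`, after the substitution `α → -α` or conjugation):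
`∑_{k ∈ K'} c(k)^2 = ∫_0^1 |U V|^2 ≤ S^2 ∫_0^1 |U|^2 = S^2 ∑_{m ∈ I} u(m)^2`.

`rs_l2`.  For `n, m ∈ blk H i`, `i ≥ 1`: `(i-1) H ≤ 2n - m < (i+2) H`, so `2n - m` is in one of the blocks `i-1, i, i+1`, whose union is
`Y = Ico ((i-1) H) ((i+2) H)`; `S = 3 H / L^A` by the hypothesis for the three blocks.  Apply `conv_l2` with `u = Lam`, `v = Fs P R`, `I = blk H i`,
`K = (blk H i).image (2 * ·)` (injective).
-/

set_option autoImplicit false

namespace Pool.Agent.H43.MP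

open Finset
open Pool.Agent.H91.PK (ee)
open Pool.Agent.H91.EHA (Lam hR lamR ramS)
open Pool.Agent.H35.W (pb)

private theorem Conv_ee_add (x y : ℝ) : ee (x + y) = ee x * ee y := by
  unfold ee
  rw [← Complex.exp_add]
  congr 1
  push_cast
  ring

/-- the coefficients of the product -/
private def Conv_c (u v : ℕ → ℝ) (I Y : Finset ℕ) (k : ℕ) : ℝ :=
  ∑ m ∈ I.filter (fun m => m ≤ k ∧ k - m ∈ Y), u m * v (k - m)

private theorem Conv_mul (u v : ℕ → ℝ) (I Y : Finset ℕ) (t : ℝ) :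
    (∑ m ∈ I, ((u m : ℝ) : ℂ) * ee (((m : ℝ) - 0) * t)) *
      (∑ m ∈ Y, ((v m : ℝ) : ℂ) * ee (((m : ℝ) - 0) * t)) =
    ∑ k ∈ (I ×ˢ Y).image (fun x => x.1 + x.2),
      ((Conv_c u v I Y k : ℝ) : ℂ) * ee (((k : ℝ) - 0) * t) := by
  rw [Finset.sum_mul_sum, ← Finset.sum_product']
  rw [← Finset.sum_fiberwise_of_maps_to (s := I ×ˢ Y) (t := (I ×ˢ Y).image (fun x => x.1 + x.2))
    (g := fun x => x.1 + x.2) (fun x hx => Finset.mem_image_of_mem _ hx)]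
  refine Finset.sum_congr rfl fun k _ => ?_
  unfold Conv_c
  push_cast
  rw [Finset.sum_mul]
  refine Finset.sum_bij' (fun x _ => x.1) (fun m _ => (m, k - m)) ?_ ?_ ?_ ?_ ?_
  · rintro ⟨a, b⟩ hx
    simp only [Finset.mem_filter, Finset.mem_product] at hx ⊢
    obtain ⟨⟨ha, hb⟩, hk⟩ := hx
    have : k - a = b := by omega
    rw [this]
    exact ⟨ha, by omega, hb⟩
  · intro m hm
    simp only [Finset.mem_filter, Finset.mem_product] at hm ⊢
    exact ⟨⟨hm.1, hm.2.2⟩, by omega⟩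
  · rintro ⟨a, b⟩ hx
    simp only [Finset.mem_filter, Finset.mem_product] at hx
    have : k - a = b := by omega
    rw [this]
  · intro m _
    rfl
  · rintro ⟨a, b⟩ hx
    simp only [Finset.mem_filter, Finset.mem_product] at hx
    obtain ⟨_, hk⟩ := hx
    subst hk
    have h1 : a + b - a = b := by omega
    have h2 : (((a + b : ℕ) : ℝ) - 0) * t = ((a : ℝ) - 0) * t + ((b : ℝ) - 0) * t := by
      push_cast
      ring
    simp only [h1]
    rw [h2, Conv_ee_add]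
    ring

private theorem Conv_cont (w : ℕ → ℝ) (s : Finset ℕ) :
    Continuous fun t : ℝ => ‖∑ m ∈ s, ((w m : ℝ) : ℂ) * ee (((m : ℝ) - 0) * t)‖ ^ 2 := by
  unfold ee
  fun_prop

theorem conv_l2 (u v : ℕ → ℝ) (I Y K : Finset ℕ) (S : ℝ)
    (hS : ∀ α : ℝ, ‖∑ m ∈ Y, ((v m : ℝ) : ℂ) * ee (-(α * m))‖ ≤ S) :
    ∑ k ∈ K, (∑ m ∈ I.filter (fun m => m ≤ k ∧ k - m ∈ Y), u m * v (k - m)) ^ 2
      ≤ S ^ 2 * ∑ m ∈ I, u m ^ 2 := by
  set K' := (I ×ˢ Y).image (fun x => x.1 + x.2) with hK'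
  have hS0 : 0 ≤ S := (norm_nonneg _).trans (hS 0)
  -- the sum over `K`
  have hz : ∀ k ∉ K', Conv_c u v I Y k = 0 := by
    intro k hk
    unfold Conv_c
    have h1 : I.filter (fun m => m ≤ k ∧ k - m ∈ Y) = ∅ := by
      rw [Finset.filter_eq_empty_iff]
      rintro m hm ⟨h2, h3⟩
      exact hk (Finset.mem_image.2 ⟨(m, k - m), Finset.mem_product.2 ⟨hm, h3⟩, by simp only; omega⟩)
    rw [h1, Finset.sum_empty]
  have h1 : ∑ k ∈ K, (Conv_c u v I Y k) ^ 2 ≤ ∑ k ∈ K', (Conv_c u v I Y k) ^ 2 := by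
    have h2 : ∑ k ∈ K', (Conv_c u v I Y k) ^ 2 = ∑ k ∈ K ∪ K', (Conv_c u v I Y k) ^ 2 := by
      refine Finset.sum_subset Finset.subset_union_right fun k _ hk => ?_
      rw [hz k hk]
      norm_num
    rw [h2]
    exact Finset.sum_le_sum_of_subset_of_nonneg Finset.subset_union_left
      fun k _ _ => sq_nonneg _
  refine h1.trans ?_
  -- Parseval
  have p1 := Pool.Agent.H91.PK.LSa_parseval K' (fun k => ((Conv_c u v I Y k : ℝ) : ℂ)) 0 0
  have p2 := Pool.Agent.H91.PK.LSa_parseval I (fun k => ((u k : ℝ) : ℂ)) 0 0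
  simp only [Complex.norm_real, Real.norm_eq_abs, sq_abs] at p1 p2
  rw [← p1, ← p2, ← intervalIntegral.integral_const_mul]
  refine intervalIntegral.integral_mono (by norm_num) ?_ ?_ fun t => ?_
  · exact (Conv_cont _ _).intervalIntegrable _ _
  · exact (continuous_const.mul (Conv_cont _ _)).intervalIntegrable _ _
  · simp only
    rw [← Conv_mul, norm_mul, mul_pow, mul_comm]
    refine mul_le_mul_of_nonneg_right ?_ (by positivity)
    refine pow_le_pow_left₀ (norm_nonneg _) ?_ 2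
    have h3 := hS (-t)
    have h4 : ∀ m : ℕ, ee (-(-t * (m : ℝ))) = ee (((m : ℝ) - 0) * t) := by
      intro m
      congr 1
      ring
    simp only [h4] at h3
    exact h3

theorem rs_l2 (P R H i : ℕ) (hi : 1 ≤ i) (S : ℝ)
    (h0 : ∀ α : ℝ, ‖∑ m ∈ blk H (i - 1), ((Fs P R m : ℝ) : ℂ) * ee (-(α * m))‖ ≤ S)
    (h1 : ∀ α : ℝ, ‖∑ m ∈ blk H i, ((Fs P R m : ℝ) : ℂ) * ee (-(α * m))‖ ≤ S)
    (h2 : ∀ α : ℝ, ‖∑ m ∈ blk H (i + 1), ((Fs P R m : ℝ) : ℂ) * ee (-(α * m))‖ ≤ S) :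
    ∑ n ∈ blk H i, rs P R H i n ^ 2 ≤ 9 * S ^ 2 * ∑ m ∈ blk H i, Lam m ^ 2 := by
  obtain ⟨j, rfl⟩ : ∃ j, i = j + 1 := ⟨i - 1, by omega⟩
  rw [Nat.add_sub_cancel] at h0
  set Y : Finset ℕ := Ico (j * H) ((j + 3) * H) with hY
  have e1 : (j + 1) * H = j * H + H := by ring
  have e2 : (j + 1 + 1) * H = j * H + 2 * H := by ring
  have e3 : (j + 3) * H = j * H + 3 * H := by ring
  have e4 : (j + 1 + 1 + 1) * H = j * H + 3 * H := by ring
  have hYs : ∀ α : ℝ, ‖∑ m ∈ Y, ((Fs P R m : ℝ) : ℂ) * ee (-(α * m))‖ ≤ 3 * S := by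
    intro α
    have h3 : ∑ m ∈ Y, ((Fs P R m : ℝ) : ℂ) * ee (-(α * m)) =
        ∑ m ∈ blk H j, ((Fs P R m : ℝ) : ℂ) * ee (-(α * m)) +
        ∑ m ∈ blk H (j + 1), ((Fs P R m : ℝ) : ℂ) * ee (-(α * m)) +
        ∑ m ∈ blk H (j + 1 + 1), ((Fs P R m : ℝ) : ℂ) * ee (-(α * m)) := by
      unfold blk
      rw [Finset.sum_Ico_consecutive _ (by rw [e1]; omega) (by rw [e1, e2]; omega),
        Finset.sum_Ico_consecutive _ (by rw [e2]; omega) (by rw [e2, e4]; omega)]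
    rw [h3]
    calc _ ≤ S + S + S := (norm_add_le _ _).trans (add_le_add ((norm_add_le _ _).trans
            (add_le_add (h0 α) (h1 α))) (h2 α))
      _ = 3 * S := by ring
  have key := conv_l2 Lam (Fs P R) (blk H (j + 1)) Y ((blk H (j + 1)).image (fun n => 2 * n))
    (3 * S) hYs
  rw [Finset.sum_image (fun a _ b _ hab => by omega)] at key
  have h4 : ∑ n ∈ blk H (j + 1), rs P R H (j + 1) n ^ 2 =
      ∑ n ∈ blk H (j + 1), (∑ m ∈ (blk H (j + 1)).filter (fun m => m ≤ 2 * n ∧ 2 * n - m ∈ Y),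
        Lam m * Fs P R (2 * n - m)) ^ 2 := by
    refine Finset.sum_congr rfl fun n hn => ?_
    unfold rs
    congr 1
    rw [Finset.filter_true_of_mem]
    intro m hm
    unfold blk at hm hn
    rw [Finset.mem_Ico, e1, e2] at hm hn
    rw [hY, Finset.mem_Ico, e3]
    omega
  rw [h4]
  refine key.trans (le_of_eq ?_)
  ring

end Pool.Agent.H43.MP
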