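import Pool.Agent.H35.W.Defs
import Pool.Agent.H91.EHA.Defs
import Pool.Agent.H91.PK.LSa

/-!
# PROJECT MIDP (MP_967f73_nt): definitions

Prime + `E_2` with `|x| ≤ n^(1/6+ε)` for almost all `n`.  `L = log N`, blocks `blk H i = [iH, (i+1)H)`,
`H = Hn θ N = ⌊N^θ⌋`, `P = Pn θ N = ⌊N^(θ/20)⌋`, `R = Rn B N = ⌊L^B⌋`, `pb P` = the primes of `(P, 2P]`.

* `FF P m = ∑_{p ∈ pb P, p | m} Λ(m/p)`, `Fs P R m = ∑_{p ∈ pb P, p | m} hR R (m/p)` (`hR = Λ - Λ_R`),
  `omP P m = #{p ∈ pb P : p | m}`;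
* `badL`: the blocks where the local Fourier uniformity of `Fs` fails (project MID, helper53);
* `badP`: the blocks where the primes are not equidistributed modulo some `r ≤ L^B` (project PSI, helper88).
-/

set_option autoImplicit false

namespace Pool.Agent.H43.MP

open Finset
open Pool.Agent.H91.PK (ee)
open Pool.Agent.H91.EHA (Lam hR lamR ramS)
open Pool.Agent.H35.W (pb)

/-- the block `[iH, (i+1)H)` -/
def blk (H i : ℕ) : Finset ℕ := Ico (i * H) ((i + 1) * H)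

/-- the length of the blocks -/
noncomputable def Hn (θ : ℝ) (N : ℕ) : ℕ := ⌊(N : ℝ) ^ θ⌋₊

/-- the size of the small prime factor -/
noncomputable def Pn (θ : ℝ) (N : ℕ) : ℕ := ⌊(N : ℝ) ^ (θ / 20)⌋₊

/-- the truncation -/
noncomputable def Rn (B N : ℕ) : ℕ := ⌊Real.log N ^ B⌋₊

/-- the indices of the blocks between `N/2` and `3N` -/
def idx (N H : ℕ) : Finset ℕ := Icc (N / (2 * H)) (3 * N / H)

/-- the weight of the numbers with a prime factor in `(P, 2P]` and a prime cofactor -/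
noncomputable def FF (P m : ℕ) : ℝ := ∑ p ∈ (pb P).filter (fun p => p ∣ m), Lam (m / p)

/-- the error part of `FF` -/
noncomputable def Fs (P R m : ℕ) : ℝ := ∑ p ∈ (pb P).filter (fun p => p ∣ m), hR R (m / p)

/-- the number of prime factors in `(P, 2P]` -/
def omP (P m : ℕ) : ℕ := ((pb P).filter (fun p => p ∣ m)).card

open Classical in
/-- the blocks where the local Fourier uniformity fails -/
noncomputable def badL (N H P R A : ℕ) : Finset ℕ :=
  (idx N H).filter (fun i => ∃ α : ℝ,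
    (H : ℝ) / Real.log N ^ A < ‖∑ m ∈ blk H i, ((Fs P R m : ℝ) : ℂ) * ee (-(α * m))‖)

open Classical in
/-- the blocks where the primes are not equidistributed -/
noncomputable def badP (N H A B : ℕ) : Finset ℕ :=
  (idx N H).filter (fun i => ∃ r a : ℕ, 1 ≤ r ∧ (r : ℝ) ≤ Real.log N ^ B ∧ Nat.Coprime a r ∧
    (H : ℝ) / Real.log N ^ A < ‖∑ m ∈ blk H i, ((Lam m : ℝ) : ℂ) * ee (-((a : ℝ) * m / r))
      - (((ArithmeticFunction.moebius r : ℝ) / (r.totient : ℝ) * H : ℝ) : ℂ)‖)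

/-- the sum of `a` over the elements of the block in the class `b` mod `p` -/
noncomputable def Zc (a : ℕ → ℂ) (H i p b : ℕ) : ℂ :=
  ∑ m ∈ (blk H i).filter (fun m => m ≡ b [MOD p]), a m

/-- `W = ∑_{p ∈ pb P} 1/p` -/
noncomputable def WP (P : ℕ) : ℝ := ∑ p ∈ pb P, 1 / (p : ℝ)

/-- `r(n) = ∑_{m ∈ blk} Λ(m) FF(2n - m)` for `n` in the block `i` -/
noncomputable def rr (P H i n : ℕ) : ℝ := ∑ m ∈ blk H i, Lam m * FF P (2 * n - m)

/-- the error term of `rr` -/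
noncomputable def rs (P R H i n : ℕ) : ℝ := ∑ m ∈ blk H i, Lam m * Fs P R (2 * n - m)

/-- the main term of `rr` -/
noncomputable def rm (P R H i n : ℕ) : ℝ :=
  ∑ m ∈ blk H i, Lam m * (lamR R (2 * n - m) * omP P (2 * n - m))

/-- the solutions: `x` with `|x| ≤ H`, `n - x` prime (in the form `φ(n-x) + 1 = n - x`), `n + x = p q`. -/
def sols (P H n : ℕ) : Set ℤ :=
  {x : ℤ | |x| ≤ H ∧ 0 < (n : ℤ) - x ∧ 0 < (n : ℤ) + x ∧
    ((Nat.totient ((n : ℤ) - x).toNat : ℤ) + 1 = (n : ℤ) - x) ∧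
    ∃ p q : ℕ, p.Prime ∧ q.Prime ∧ P < p ∧ p ≤ 2 * P ∧ (n : ℤ) + x = p * q}

end Pool.Agent.H43.MP
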