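import Pool.Agent.H43.MP.MainVar
import Pool.Agent.H76.GB.Sing
import Pool.Agent.H91.EHA.SwK2

/-!
# MIDP MainTerm: the main term on a good block

For `1 ≤ i`, `n, m ∈ blk H i`: `m ≤ 2n`.  With `ramS r k = ∑_{(b,r)=1} ee(k b/r)` (`ramS_eq`) and `ee((2n-m) b/r) = ee(2n b/r) ee(-b m/r)`:
`rm(n) = ∑_{r ≤ R} (μ(r)/φ(r)) ∑_b ee(2n b/r) ∑_{p ∈ pb P} Zc a_{r,b} H i p (2n)`, `a_{r,b}(m) = Λ(m) ee(-(b m/r))`
(`p | 2n - m ↔ m ≡ 2n mod p`).  Replace `Zc` by `(1/p) Z_{r,b}`: error `≤ E(n) := ∑_r ∑_b (1/φ(r)) ∑_p ‖Zc a_{r,b} (2n) - Z_{r,b}/p‖`,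
`∑_n E(n)^2 ≤ (∑_r ∑_b 1/φ(r)) ∑_r ∑_b (1/φ(r)) ∑_n (∑_p ..)^2 ≤ R · R · 10 H^2/P ∑ Λ^2` (`main_var`, `#b = φ(r)`).
Replace `Z_{r,b}` by `(μ(r)/φ(r)) H` (`i ∉ badP`): error `≤ W ∑_r ∑_b (1/φ(r)) H/L^A' ≤ W R H/L^A'`; what remains is
`W H ∑_r (μ(r)^2/φ(r)^2) ∑_b ee(2n b/r) = W H SR R (2n)`.
-/

set_option autoImplicit false

namespace Pool.Agent.H43.MP

open Finset
open Pool.Agent.H91.PK (ee)
open Pool.Agent.H91.EHA (Lam hR lamR ramS)
open Pool.Agent.H35.W (pb)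
open Pool.Agent.H76.GB (SR)

/-- the reduced residues -/
private def mt_red (r : ℕ) : Finset ℕ := (Icc 1 r).filter (fun b => Nat.Coprime b r)

private theorem mt_card (r : ℕ) (_hr : 1 ≤ r) : (mt_red r).card = r.totient := by
  have h := Nat.filter_coprime_Ico_eq_totient r 1
  rw [← h]
  unfold mt_red
  congr 1
  ext b
  simp only [mem_filter, mem_Icc, mem_Ico]
  constructor
  · rintro ⟨⟨h1, h2⟩, h3⟩
    exact ⟨⟨h1, by omega⟩, h3.symm⟩
  · rintro ⟨⟨h1, h2⟩, h3⟩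
    exact ⟨⟨h1, by omega⟩, h3.symm⟩

/-- the twisted von Mangoldt function -/
private noncomputable def mt_a (r b m : ℕ) : ℂ := ((Lam m : ℝ) : ℂ) * ee (-((b : ℝ) * m / r))

private theorem mt_norm (r b m : ℕ) : ‖mt_a r b m‖ = |Lam m| := by
  unfold mt_a
  rw [norm_mul, Pool.Agent.H91.PK.LSa_norm_ee, mul_one, Complex.norm_real, Real.norm_eq_abs]

private theorem mt_le (H i n m : ℕ) (hi : 1 ≤ i) (hn : n ∈ blk H i) (hm : m ∈ blk H i) :
    m < 2 * n := by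
  unfold blk at hn hm
  rw [mem_Ico] at hn hm
  have h1 : (i + 1) * H ≤ 2 * (i * H) := by nlinarith
  omega

/-- the exact formula for `rm` -/
private theorem mt_exact (P R H i n : ℕ) (hi : 1 ≤ i) (hn : n ∈ blk H i) :
    ((rm P R H i n : ℝ) : ℂ) = ∑ r ∈ Icc 1 R, (((ArithmeticFunction.moebius r : ℝ) / (r.totient : ℝ) : ℝ) : ℂ)
      * ∑ b ∈ mt_red r, ee (((2 * n : ℕ) : ℝ) * b / r) * ∑ p ∈ pb P, Zc (mt_a r b) H i p (2 * n) := by
  have h1 : ∀ m ∈ blk H i, ((Lam m * (lamR R (2 * n - m) * omP P (2 * n - m)) : ℝ) : ℂ)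
      = ∑ r ∈ Icc 1 R, (((ArithmeticFunction.moebius r : ℝ) / (r.totient : ℝ) : ℝ) : ℂ)
        * ∑ b ∈ mt_red r, ee (((2 * n : ℕ) : ℝ) * b / r) *
          ∑ p ∈ pb P, (if m ≡ 2 * n [MOD p] then mt_a r b m else 0) := by
    intro m hm
    have hmn := mt_le H i n m hi hn hm
    have h2 : ((omP P (2 * n - m) : ℕ) : ℂ) = ∑ p ∈ pb P, (if m ≡ 2 * n [MOD p] then (1 : ℂ) else 0) := by
      unfold omP
      rw [card_filter]
      push_cast
      refine sum_congr rfl fun p _ => ?_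
      have h3 : p ∣ 2 * n - m ↔ m ≡ 2 * n [MOD p] := (Nat.modEq_iff_dvd' hmn.le).symm
      by_cases h4 : p ∣ 2 * n - m
      · rw [if_pos h4, if_pos (h3.1 h4)]
      · rw [if_neg h4, if_neg fun h => h4 (h3.2 h)]
    have h3 : ((lamR R (2 * n - m) : ℝ) : ℂ) = ∑ r ∈ Icc 1 R,
        (((ArithmeticFunction.moebius r : ℝ) / (r.totient : ℝ) : ℝ) : ℂ)
          * ∑ b ∈ mt_red r, ee (((2 * n - m : ℕ) : ℝ) * b / r) := by
      unfold lamR
      rw [Complex.ofReal_sum]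
      refine sum_congr rfl fun r hr => ?_
      rw [mem_Icc] at hr
      rw [Complex.ofReal_mul, Pool.Agent.H91.EHA.ramS_eq r _ hr.1]
      rfl
    rw [Complex.ofReal_mul, Complex.ofReal_mul, Complex.ofReal_natCast, h2, h3, sum_mul, mul_sum]
    refine sum_congr rfl fun r hr => ?_
    rw [mul_assoc, mul_left_comm]
    congr 1
    rw [sum_mul, mul_sum]
    refine sum_congr rfl fun b _ => ?_
    rw [mul_sum, mul_sum, mul_sum]
    refine sum_congr rfl fun p _ => ?_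
    split_ifs
    · unfold mt_a
      have h4 : ee (((2 * n - m : ℕ) : ℝ) * b / r)
          = ee (((2 * n : ℕ) : ℝ) * b / r) * ee (-((b : ℝ) * m / r)) := by
        rw [← Pool.Agent.H91.PK.LSa_ee_add]
        congr 1
        rw [Nat.cast_sub hmn.le]
        ring
      rw [h4]
      ring
    · ring
  unfold rm
  rw [Complex.ofReal_sum, sum_congr rfl h1, sum_comm]
  refine sum_congr rfl fun r _ => ?_
  rw [← mul_sum, sum_comm]
  congr 1
  refine sum_congr rfl fun b _ => ?_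
  rw [← mul_sum, sum_comm]
  congr 1
  refine sum_congr rfl fun p _ => ?_
  unfold Zc
  rw [sum_filter]

/-- the error function -/
private noncomputable def mt_E (P R H i n : ℕ) : ℝ :=
  ∑ t ∈ (Icc 1 R).sigma mt_red, 1 / (t.1.totient : ℝ) *
    ∑ p ∈ pb P, ‖Zc (mt_a t.1 t.2) H i p (2 * n) - (1 / (p : ℂ)) * ∑ m ∈ blk H i, mt_a t.1 t.2 m‖

private theorem mt_E_sq (P R H i : ℕ) (hP : 2 ≤ P) (hi1 : 1 ≤ i) (hPH : 4 * P ^ 2 ≤ H) :
    ∑ n ∈ blk H i, mt_E P R H i n ^ 2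
      ≤ 10 * (R : ℝ) ^ 2 * (H : ℝ) ^ 2 / P * ∑ m ∈ blk H i, Lam m ^ 2 := by
  set T := (Icc 1 R).sigma mt_red with hT
  have hw : ∑ t ∈ T, 1 / (t.1.totient : ℝ) = R := by
    rw [hT, sum_sigma]
    have : ∀ r ∈ Icc 1 R, ∑ b ∈ mt_red r, 1 / (((⟨r, b⟩ : Σ _ : ℕ, ℕ).1.totient : ℕ) : ℝ) = 1 := by
      intro r hr
      rw [mem_Icc] at hr
      show ∑ _b ∈ mt_red r, 1 / (r.totient : ℝ) = 1
      rw [sum_const, mt_card r hr.1, nsmul_eq_mul]
      have : (0 : ℝ) < r.totient := by exact_mod_cast Nat.totient_pos.2 hr.1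
      field_simp
    rw [sum_congr rfl this]
    simp
  have hx : ∀ n, mt_E P R H i n ^ 2 ≤ R * ∑ t ∈ T, 1 / (t.1.totient : ℝ) *
      (∑ p ∈ pb P, ‖Zc (mt_a t.1 t.2) H i p (2 * n)
        - (1 / (p : ℂ)) * ∑ m ∈ blk H i, mt_a t.1 t.2 m‖) ^ 2 := by
    intro n
    rw [← hw]
    unfold mt_E
    refine sum_sq_le_sum_mul_sum_of_sq_le_mul T (fun t _ => by positivity) (fun t _ => by positivity)
      fun t _ => le_of_eq (by ring)
  calc ∑ n ∈ blk H i, mt_E P R H i n ^ 2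
      ≤ ∑ n ∈ blk H i, (R : ℝ) * ∑ t ∈ T, 1 / (t.1.totient : ℝ) *
        (∑ p ∈ pb P, ‖Zc (mt_a t.1 t.2) H i p (2 * n)
          - (1 / (p : ℂ)) * ∑ m ∈ blk H i, mt_a t.1 t.2 m‖) ^ 2 := sum_le_sum fun n _ => hx n
    _ = (R : ℝ) * ∑ t ∈ T, 1 / (t.1.totient : ℝ) * ∑ n ∈ blk H i,
        (∑ p ∈ pb P, ‖Zc (mt_a t.1 t.2) H i p (2 * n)
          - (1 / (p : ℂ)) * ∑ m ∈ blk H i, mt_a t.1 t.2 m‖) ^ 2 := by
        rw [← mul_sum, sum_comm]
        congr 1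
        refine sum_congr rfl fun t _ => ?_
        rw [mul_sum]
    _ ≤ (R : ℝ) * ∑ t ∈ T, 1 / (t.1.totient : ℝ) * (10 * (H : ℝ) ^ 2 / P * ∑ m ∈ blk H i, Lam m ^ 2) := by
        refine mul_le_mul_of_nonneg_left (sum_le_sum fun t _ => ?_) (Nat.cast_nonneg R)
        refine mul_le_mul_of_nonneg_left ?_ (by positivity)
        refine (main_var P H i (mt_a t.1 t.2) hP hi1 hPH).trans (le_of_eq ?_)
        congr 1
        refine sum_congr rfl fun m _ => ?_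
        rw [mt_norm, sq_abs]
    _ = _ := by
        rw [← sum_mul, hw]
        ring

theorem rm_near (N A B P H i : ℕ) (hP : 2 ≤ P) (hi1 : 1 ≤ i) (hPH : 4 * P ^ 2 ≤ H)
    (hi : i ∈ idx N H) (hg : i ∉ badP N H A B) :
    ∃ E : ℕ → ℝ, (∀ n ∈ blk H i, |rm P (Rn B N) H i n - WP P * H * SR (Rn B N) (2 * n)|
        ≤ WP P * (Rn B N) * ((H : ℝ) / Real.log N ^ A) + E n) ∧
      ∑ n ∈ blk H i, E n ^ 2 ≤ 10 * (Rn B N : ℝ) ^ 2 * (H : ℝ) ^ 2 / P * ∑ m ∈ blk H i, Lam m ^ 2 := by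
  set R := Rn B N with hR
  refine ⟨mt_E P R H i, fun n hn => ?_, mt_E_sq P R H i hP hi1 hPH⟩
  have hW0 : 0 ≤ WP P := sum_nonneg fun p _ => by positivity
  have hgood : ∀ r ∈ Icc 1 R, ∀ b ∈ mt_red r, ‖∑ m ∈ blk H i, mt_a r b m
      - (((ArithmeticFunction.moebius r : ℝ) / (r.totient : ℝ) * H : ℝ) : ℂ)‖ ≤ (H : ℝ) / Real.log N ^ A := by
    intro r hr b hb
    by_contra hcon
    push Not at hcon
    apply hg
    classical
    unfold badP
    rw [mem_Icc] at hr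
    unfold mt_red at hb
    rw [mem_filter] at hb
    simp only [mem_filter]
    refine ⟨hi, r, b, hr.1, ?_, hb.2, hcon⟩
    have h1 : (r : ℝ) ≤ R := by exact_mod_cast hr.2
    refine h1.trans ?_
    rw [hR]
    unfold Rn
    refine Nat.floor_le ?_
    have : 0 ≤ Real.log N := Real.log_natCast_nonneg N
    positivity
  -- the main term
  have hmain : ((WP P * H * SR R (2 * n) : ℝ) : ℂ) = ∑ r ∈ Icc 1 R,
      (((ArithmeticFunction.moebius r : ℝ) / (r.totient : ℝ) : ℝ) : ℂ)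
        * ∑ b ∈ mt_red r, ee (((2 * n : ℕ) : ℝ) * b / r) * ((WP P : ℝ) : ℂ) *
          (((ArithmeticFunction.moebius r : ℝ) / (r.totient : ℝ) * H : ℝ) : ℂ) := by
    unfold SR
    rw [Complex.ofReal_mul, Complex.ofReal_sum, mul_sum]
    refine sum_congr rfl fun r hr => ?_
    rw [mem_Icc] at hr
    have h1 := Pool.Agent.H91.EHA.ramS_eq r (2 * n) hr.1
    have h2 : ((ArithmeticFunction.moebius r : ℝ) ^ 2 * ramS r (2 * n) / (r.totient : ℝ) ^ 2 : ℝ)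
        = ((ArithmeticFunction.moebius r : ℝ) / (r.totient : ℝ)) ^ 2 * ramS r (2 * n) := by
      rw [div_pow]; ring
    rw [h2, Complex.ofReal_mul, Complex.ofReal_mul, h1, mul_sum, mul_sum, mul_sum]
    refine sum_congr rfl fun b _ => ?_
    push_cast
    ring
  have hkey : ‖((rm P R H i n : ℝ) : ℂ) - ((WP P * H * SR R (2 * n) : ℝ) : ℂ)‖
      ≤ ∑ r ∈ Icc 1 R, ∑ b ∈ mt_red r, (1 / (r.totient : ℝ) *
        (∑ p ∈ pb P, ‖Zc (mt_a r b) H i p (2 * n) - (1 / (p : ℂ)) * ∑ m ∈ blk H i, mt_a r b m‖)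
        + 1 / (r.totient : ℝ) * (WP P * ((H : ℝ) / Real.log N ^ A))) := by
    rw [mt_exact P R H i n hi1 hn, hmain, ← sum_sub_distrib]
    refine norm_sum_le_of_le _ fun r hr => ?_
    rw [← mul_sub, ← sum_sub_distrib, mul_sum]
    refine norm_sum_le_of_le _ fun b hb => ?_
    have hr1 : 1 ≤ r := (mem_Icc.1 hr).1
    have hphi : (0 : ℝ) < r.totient := by exact_mod_cast Nat.totient_pos.2 hr1
    rw [mul_assoc (ee _), ← mul_sub, norm_mul, norm_mul, Pool.Agent.H91.PK.LSa_norm_ee, one_mul,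
      Complex.norm_real, Real.norm_eq_abs, abs_div, abs_of_pos hphi, ← mul_add]
    have hmu : |(ArithmeticFunction.moebius r : ℝ)| ≤ 1 := by
      have := ArithmeticFunction.abs_moebius_le_one (n := r)
      exact_mod_cast this
    refine mul_le_mul (div_le_div_of_nonneg_right hmu hphi.le) ?_ (norm_nonneg _) (by positivity)
    have hWc : ((WP P : ℝ) : ℂ) = ∑ p ∈ pb P, 1 / (p : ℂ) := by
      unfold WP
      push_cast
      rfl
    have hsplit : ∑ p ∈ pb P, Zc (mt_a r b) H i p (2 * n) - ((WP P : ℝ) : ℂ) *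
          (((ArithmeticFunction.moebius r : ℝ) / (r.totient : ℝ) * H : ℝ) : ℂ)
        = ∑ p ∈ pb P, (Zc (mt_a r b) H i p (2 * n) - (1 / (p : ℂ)) * ∑ m ∈ blk H i, mt_a r b m)
          + ((WP P : ℝ) : ℂ) * (∑ m ∈ blk H i, mt_a r b m
            - (((ArithmeticFunction.moebius r : ℝ) / (r.totient : ℝ) * H : ℝ) : ℂ)) := by
      rw [sum_sub_distrib, ← sum_mul, ← hWc]
      ring
    rw [hsplit]
    refine (norm_add_le _ _).trans (add_le_add (norm_sum_le _ _) ?_)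
    rw [norm_mul, Complex.norm_real, Real.norm_eq_abs, abs_of_nonneg hW0]
    exact mul_le_mul_of_nonneg_left (hgood r hr b hb) hW0
  rw [← Complex.ofReal_sub, Complex.norm_real, Real.norm_eq_abs] at hkey
  refine hkey.trans (le_of_eq ?_)
  rw [sum_congr rfl fun r _ => sum_add_distrib, sum_add_distrib]
  have h1 : ∑ r ∈ Icc 1 R, ∑ _b ∈ mt_red r, 1 / (r.totient : ℝ) * (WP P * ((H : ℝ) / Real.log N ^ A))
      = WP P * R * ((H : ℝ) / Real.log N ^ A) := by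
    have : ∀ r ∈ Icc 1 R, ∑ _b ∈ mt_red r, 1 / (r.totient : ℝ) * (WP P * ((H : ℝ) / Real.log N ^ A))
        = WP P * ((H : ℝ) / Real.log N ^ A) := by
      intro r hr
      rw [mem_Icc] at hr
      rw [sum_const, mt_card r hr.1, nsmul_eq_mul]
      have : (0 : ℝ) < r.totient := by exact_mod_cast Nat.totient_pos.2 hr.1
      field_simp
    rw [sum_congr rfl this]
    simp only [sum_const, Nat.card_Icc, nsmul_eq_mul, add_tsub_cancel_right]
    ring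
  rw [h1, add_comm]
  congr 1
  unfold mt_E
  rw [sum_sigma]

end Pool.Agent.H43.MP
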