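import Pool.Agent.H43.MP.Defs
import Pool.Agent.H76.GB.PbCard

/-!
# MIDP WPb: `W = ∑_{p ∈ pb P} 1/p` and `∑ Λ²` on a block

`WP P ≤ 1` (`|pb P| ≤ P`, every term `≤ 1/P`), `WP P ≥ |pb P|/(2P) ≥ 1/(16 log P)` (`pb_card`);
`∑_{m ∈ blk H i} Λ(m)^2 ≤ H (2 L)^2` if the block is contained in `[1, N^2]`.
-/

set_option autoImplicit false

namespace Pool.Agent.H43.MP

open Finset
open Pool.Agent.H91.PK (ee)
open Pool.Agent.H91.EHA (Lam hR lamR ramS)
open Pool.Agent.H35.W (pb)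

private theorem wPb_card (P : ℕ) : (pb P).card ≤ P := by
  unfold Pool.Agent.H35.W.pb
  refine (Finset.card_filter_le _ _).trans ?_
  rw [Nat.card_Ioc]
  omega

private theorem wPb_mem {P p : ℕ} (h : p ∈ pb P) : P < p ∧ p ≤ 2 * P := by
  unfold Pool.Agent.H35.W.pb at h
  rw [mem_filter, mem_Ioc] at h
  exact h.1

theorem WP_le (P : ℕ) (hP : 1 ≤ P) : WP P ≤ 1 := by
  have hP0 : (0 : ℝ) < P := by exact_mod_cast hP
  have h1 : WP P ≤ ∑ _p ∈ pb P, 1 / (P : ℝ) := by
    unfold WP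
    refine Finset.sum_le_sum fun p hp => ?_
    have h := (wPb_mem hp).1
    exact one_div_le_one_div_of_le hP0 (by exact_mod_cast h.le)
  rw [sum_const, nsmul_eq_mul] at h1
  have h2 : ((pb P).card : ℝ) ≤ P := by exact_mod_cast wPb_card P
  calc WP P ≤ ((pb P).card : ℝ) * (1 / P) := h1
    _ ≤ P * (1 / P) := mul_le_mul_of_nonneg_right h2 (by positivity)
    _ = 1 := by field_simp

theorem WP_ge : ∃ P0 : ℕ, ∀ P : ℕ, P0 ≤ P → 1 / (16 * Real.log P) ≤ WP P := by
  obtain ⟨P0, h0⟩ := Pool.Agent.H76.GB.pb_card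
  refine ⟨max P0 2, fun P hP => ?_⟩
  have h1 := h0 P (le_trans (le_max_left _ _) hP)
  have hP2 : 2 ≤ P := le_trans (le_max_right _ _) hP
  have hP0 : (0 : ℝ) < P := by exact_mod_cast (by omega : 0 < P)
  have hl : 0 < Real.log P := Real.log_pos (by exact_mod_cast (by omega : 1 < P))
  have h2 : ∑ _p ∈ pb P, 1 / (2 * (P : ℝ)) ≤ WP P := by
    unfold WP
    refine Finset.sum_le_sum fun p hp => ?_
    have h := (wPb_mem hp).2
    have hp0 : (0 : ℝ) < p := by exact_mod_cast (by have := (wPb_mem hp).1; omega : 0 < p)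
    exact one_div_le_one_div_of_le hp0 (by exact_mod_cast h)
  rw [sum_const, nsmul_eq_mul] at h2
  calc 1 / (16 * Real.log P) = (P : ℝ) / (8 * Real.log P) * (1 / (2 * P)) := by
        field_simp
        ring
    _ ≤ ((pb P).card : ℝ) * (1 / (2 * P)) := mul_le_mul_of_nonneg_right h1 (by positivity)
    _ ≤ WP P := h2

private theorem wPb_lam {N m : ℕ} (hN : 1 ≤ N) (h : m ≤ N ^ 2) :
    Lam m ^ 2 ≤ (2 * Real.log N) ^ 2 := by
  have hN1 : (1 : ℝ) ≤ N := by exact_mod_cast hN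
  have hl : 0 ≤ Real.log N := Real.log_nonneg hN1
  have h0 : 0 ≤ Lam m := by
    unfold Pool.Agent.H91.EHA.Lam
    exact ArithmeticFunction.vonMangoldt_nonneg
  have h1 : Lam m ≤ 2 * Real.log N := by
    rcases Nat.eq_zero_or_pos m with hm | hm
    · subst hm
      unfold Pool.Agent.H91.EHA.Lam
      simp only [ArithmeticFunction.map_zero]
      positivity
    · have h2 : Lam m ≤ Real.log m := by
        unfold Pool.Agent.H91.EHA.Lam
        exact ArithmeticFunction.vonMangoldt_le_log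
      have h3 : Real.log m ≤ Real.log ((N : ℝ) ^ 2) :=
        Real.log_le_log (by exact_mod_cast hm) (by exact_mod_cast h)
      rw [Real.log_pow] at h3
      push_cast at h3
      linarith
  exact pow_le_pow_left₀ h0 h1 2

theorem lam_sq (N H i : ℕ) (hN : 1 ≤ N) (h : (i + 1) * H ≤ N ^ 2) :
    ∑ m ∈ blk H i, Lam m ^ 2 ≤ H * (2 * Real.log N) ^ 2 := by
  have h1 : ∑ m ∈ blk H i, Lam m ^ 2 ≤ ∑ _m ∈ blk H i, (2 * Real.log N) ^ 2 := by
    refine Finset.sum_le_sum fun m hm => wPb_lam hN ?_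
    unfold blk at hm
    rw [mem_Ico] at hm
    omega
  rw [sum_const, nsmul_eq_mul] at h1
  have h2 : (blk H i).card = H := by
    unfold blk
    rw [Nat.card_Ico, Nat.add_mul, Nat.one_mul, Nat.add_sub_cancel_left]
  rw [h2] at h1
  exact h1

end Pool.Agent.H43.MP
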