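import Pool.Agent.H43.MP.Res
import Pool.Agent.H88.PSI.HuxR

/-!
# MIDP Hux: the black box `HUX` (project PSI, helper88)
-/

set_option autoImplicit false

namespace Pool.Agent.H43.MP

theorem hux_all (θ' : ℝ) (h : 1 / 6 < θ') : HUX θ' := fun A B =>
  Pool.Agent.H88.PSI.hux_r θ' h A B

end Pool.Agent.H43.MP
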