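import Pool.Agent.H43.MP.Lnk
import Pool.Agent.H53.MID.Lfu
import Pool.Agent.H53.MID.SwH
import Pool.Agent.H97.VK.VkClass

/-!
# MIDP LfuP: the black box `LFUP` (project MID, helper53)
-/

set_option autoImplicit false

namespace Pool.Agent.H43.MP

open Finset
open Pool.Agent.H91.PK (ee)
open Pool.Agent.H91.EHA (Lam hR lamR ramS)
open Pool.Agent.H35.W (pb)

theorem lfup_all : LFUP := by
  classical
  intro e1 he1 A
  obtain ⟨B0, h⟩ := Pool.Agent.H53.MID.lfu Pool.Agent.H97.VK.vk_class Pool.Agent.H53.MID.sw_holds e1 he1 A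
  refine ⟨B0, fun B hB => ?_⟩
  obtain ⟨N0, h2⟩ := h B hB
  refine ⟨N0, fun N hN H P h3 h4 h5 => ?_⟩
  refine le_trans ?_ (h2 N hN H P h3 h4 h5)
  norm_cast

end Pool.Agent.H43.MP
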