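import Pool.Agent.H43.MP.Final
import Pool.Agent.H43.MP.Blk

/-!
# MIDP Lnk: the theorem from the two black boxes in their final forms

`LFUP`: local Fourier uniformity (project MID, helper53), `HUX θ'`: primes in almost all intervals (project PSI, helper88).
-/

set_option autoImplicit false

namespace Pool.Agent.H43.MP

open Finset
open Pool.Agent.H91.PK (ee)
open Pool.Agent.H91.EHA (Lam hR lamR ramS)
open Pool.Agent.H35.W (pb)

open Classical in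
/-- local Fourier uniformity of `Fs` on almost all blocks, all parameters -/
def LFUP : Prop := ∀ e1 : ℝ, 0 < e1 → ∀ A : ℕ, ∃ B0 : ℕ, ∀ B : ℕ, B0 ≤ B → ∃ N0 : ℕ,
  ∀ N : ℕ, N0 ≤ N → ∀ H P : ℕ, (N : ℝ) ^ e1 ≤ P → P ^ 5 ≤ H → H ^ 2 ≤ N →
    (((Icc (N / (2 * H)) (4 * N / H)).filter (fun i => ∃ α : ℝ, (H : ℝ) / Real.log N ^ A <
      ‖∑ m ∈ Ico (i * H) ((i + 1) * H), ((Fs P ⌊Real.log N ^ B⌋₊ m : ℝ) : ℂ) * ee (-(m * α))‖)).card : ℝ)
      ≤ (N / H : ℝ) / Real.log N ^ A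

/-- the local Fourier uniformity with the parameters of this project -/
theorem badL_of (hl : LFUP) (θ : ℝ) (h0 : 0 < θ) (h1 : θ ≤ 1 / 4) (A : ℕ) :
    ∃ B N0 : ℕ, ∀ N : ℕ, N0 ≤ N →
      ((badL N (Hn θ N) (Pn θ N) (Rn B N) A).card : ℝ) ≤ (N : ℝ) / (Hn θ N) / Real.log N ^ A := by
  classical
  obtain ⟨B, hB⟩ := hl (θ / 40) (by positivity) A
  obtain ⟨N1, hN1⟩ := hB B le_rfl
  obtain ⟨x1, hx1⟩ := Pool.Agent.H76.GB.log_pow_le (θ / 40) 2 (by positivity) (by norm_num) 0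
  obtain ⟨x2, hx2⟩ := Pool.Agent.H76.GB.log_pow_le (3 * θ / 4) 2 (by positivity) (by norm_num) 0
  refine ⟨B, max (max N1 x1) (max x2 1), fun N hN => ?_⟩
  have g1 : N1 ≤ N := ((le_max_left _ _).trans (le_max_left _ _)).trans hN
  have g2 := hx1 N (((le_max_right _ _).trans (le_max_left _ _)).trans hN)
  have g3 := hx2 N (((le_max_left _ _).trans (le_max_right _ _)).trans hN)
  have g4 : 1 ≤ N := ((le_max_right _ _).trans (le_max_right _ _)).trans hN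
  rw [pow_zero, mul_one] at g2 g3
  have hNr : (1 : ℝ) ≤ N := by exact_mod_cast g4
  have hN0 : (0 : ℝ) < N := by linarith
  have e0 : (0 : ℝ) ≤ (N : ℝ) ^ (θ / 40) := by positivity
  have p1 : (N : ℝ) ^ (θ / 20) < Pn θ N + 1 := Nat.lt_floor_add_one _
  have p2 : (Pn θ N : ℝ) ≤ (N : ℝ) ^ (θ / 20) := Nat.floor_le (by positivity)
  have q1 : (N : ℝ) ^ θ < Hn θ N + 1 := Nat.lt_floor_add_one _
  have q2 : (Hn θ N : ℝ) ≤ (N : ℝ) ^ θ := Nat.floor_le (by positivity)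
  have t1 : (N : ℝ) ^ (θ / 20) = (N : ℝ) ^ (θ / 40) * (N : ℝ) ^ (θ / 40) := by
    rw [← Real.rpow_add hN0]
    congr 1
    ring
  have h2 : (N : ℝ) ^ (θ / 40) ≤ Pn θ N := by nlinarith
  have h3 : Pn θ N ^ 5 ≤ Hn θ N := by
    have t2 : ((Pn θ N : ℕ) : ℝ) ^ 5 ≤ (N : ℝ) ^ (θ / 4) := by
      refine (pow_le_pow_left₀ (Nat.cast_nonneg _) p2 5).trans (le_of_eq ?_)
      rw [← Real.rpow_natCast, ← Real.rpow_mul hN0.le]
      congr 1
      push_cast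
      ring
    have t3 : (N : ℝ) ^ θ = (N : ℝ) ^ (θ / 4) * (N : ℝ) ^ (3 * θ / 4) := by
      rw [← Real.rpow_add hN0]
      congr 1
      ring
    have t4 : (1 : ℝ) ≤ (N : ℝ) ^ (θ / 4) := Real.one_le_rpow hNr (by positivity)
    have t5 : ((Pn θ N : ℕ) : ℝ) ^ 5 ≤ Hn θ N := by nlinarith
    exact_mod_cast t5
  have h4 : Hn θ N ^ 2 ≤ N := by
    have t2 : ((Hn θ N : ℕ) : ℝ) ^ 2 ≤ N := by
      refine (pow_le_pow_left₀ (Nat.cast_nonneg _) q2 2).trans ?_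
      rw [← Real.rpow_natCast, ← Real.rpow_mul hN0.le]
      refine (Real.rpow_le_rpow_of_exponent_le hNr (?_ : θ * ((2 : ℕ) : ℝ) ≤ 1)).trans (le_of_eq ?_)
      · push_cast
        linarith
      · rw [Real.rpow_one]
    exact_mod_cast t2
  have h5 := hN1 N g1 (Hn θ N) (Pn θ N) h2 h3 h4
  refine le_trans ?_ h5
  norm_cast
  refine card_le_card ?_
  intro i hi
  unfold badL at hi
  simp only [mem_filter] at hi ⊢
  obtain ⟨hi1, α, hα⟩ := hi
  refine ⟨?_, α, ?_⟩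
  · unfold idx at hi1
    rw [mem_Icc] at hi1 ⊢
    exact ⟨hi1.1, hi1.2.trans (Nat.div_le_div_right (by omega))⟩
  · refine lt_of_lt_of_le hα (le_of_eq ?_)
    unfold blk Rn
    congr 1
    refine sum_congr rfl fun m _ => ?_
    rw [mul_comm α (m : ℝ)]

/-- the theorem from the two black boxes -/
theorem midp_link (hl : LFUP) (hx : ∀ θ' : ℝ, 1 / 6 < θ' → HUX θ') (θ : ℝ) (h1 : 1 / 6 < θ)
    (h2 : θ ≤ 1 / 4) (A : ℕ) : ∃ N0 : ℕ, ∀ N : ℕ, N0 ≤ N →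
      (((Ioc N (2 * N)).filter (fun n =>
        ((sols (Pn θ N) (Hn θ N) n).ncard : ℝ) < (N : ℝ) ^ θ / (10 * Real.log N ^ 3))).card : ℝ)
      ≤ N / Real.log N ^ A :=
  midp_of θ (by linarith) h2 (badL_of hl θ (by linarith) h2)
    (badP_card θ ((1 / 6 + θ) / 2) (by linarith) (by linarith) h2 (hx _ (by linarith))) A

end Pool.Agent.H43.MP
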