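import Pool.Agent.H43.MP.ClsVar

/-!
# MIDP MainVar: the variance over the block

Cauchy: `(∑_p x_p)^2 ≤ |pb P| ∑_p x_p^2`, `|pb P| ≤ P`.  For a prime `p` of `(P, 2P]` (odd, as `P ≥ 2`) the map `n ↦ 2n mod p` takes every value
`b mod p` for at most `H/p + 1 ≤ 2H/p` integers `n` of the block (`p ≤ 2P ≤ 4P^2 ≤ H`), and `Zc a H i p (2n) = Zc a H i p (2n % p)`.  So
`∑_n ‖Z(p,2n) - Z/p‖^2 ≤ (2H/p) ∑_{b < p} ‖Z(p,b) - Z/p‖^2` and, as `p > P`,
`∑_p (2H/p) ∑_b = ∑_p (2H/p^2) p ∑_b ≤ (2H/P^2) (4P^2 + π H) ∑|a|^2 ≤ (2H/P^2)(5H) ∑ |a|^2` (`cls_var`, `4P^2 ≤ H`, `1 + π ≤ 5`).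
-/

set_option autoImplicit false

namespace Pool.Agent.H43.MP

open Finset
open Pool.Agent.H91.PK (ee)
open Pool.Agent.H91.EHA (Lam hR lamR ramS)
open Pool.Agent.H35.W (pb)

/-- the number of `n` in the block with `2 n` in a class -/
private theorem MainVar_card (H i p b : ℕ) (hp : p.Prime) (h2 : 2 < p) :
    ((blk H i).filter (fun n => 2 * n % p = b)).card ≤ H / p + 1 := by
  have h : ((blk H i).filter (fun n => 2 * n % p = b)).card ≤ (range (H / p + 1)).card := by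
    refine card_le_card_of_injOn (fun n => (n - i * H) / p) ?_ ?_
    · intro n hn
      have hn1 := mem_filter.1 hn
      have hn2 := mem_Ico.1 hn1.1
      have e1 : (i + 1) * H = i * H + H := by ring
      have e2 : n - i * H ≤ H := by omega
      exact mem_coe.2 (mem_range.2 (Nat.lt_succ_of_le (Nat.div_le_div_right e2)))
    · intro n hn n' hn' he
      have hn1 := mem_filter.1 hn
      have hn2 := mem_Ico.1 hn1.1
      have hn1' := mem_filter.1 hn'
      have hn2' := mem_Ico.1 hn1'.1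
      have he' : (n - i * H) / p = (n' - i * H) / p := he
      have hmod : 2 * n ≡ 2 * n' [MOD p] := by
        unfold Nat.ModEq
        rw [hn1.2, hn1'.2]
      have hcop : Nat.gcd p 2 = 1 := by
        rw [Nat.gcd_comm]
        exact (Nat.coprime_primes Nat.prime_two hp).2 (by omega)
      have hmod2 : n ≡ n' [MOD p] := Nat.ModEq.cancel_left_of_coprime hcop hmod
      have hmod3 : n - i * H ≡ n' - i * H [MOD p] := by
        have e1 : i * H + (n - i * H) ≡ i * H + (n' - i * H) [MOD p] := by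
          rw [Nat.add_sub_cancel' hn2.1, Nat.add_sub_cancel' hn2'.1]
          exact hmod2
        exact Nat.ModEq.add_left_cancel' _ e1
      have h3 : n - i * H = n' - i * H := by
        rw [← Nat.div_add_mod (n - i * H) p, ← Nat.div_add_mod (n' - i * H) p, he', hmod3]
      omega
  rwa [card_range] at h

private theorem MainVar_mod (a : ℕ → ℂ) (H i p n : ℕ) : Zc a H i p n = Zc a H i p (n % p) := by
  unfold Zc
  congr 1
  refine filter_congr fun m _ => ?_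
  unfold Nat.ModEq
  rw [Nat.mod_mod]

private theorem MainVar_prime (H i p : ℕ) (hp : p.Prime) (h2 : 2 < p) (hpH : p ≤ H) (g : ℕ → ℝ) (hg : ∀ b, 0 ≤ g b) :
    ∑ n ∈ blk H i, g (2 * n % p) ≤ (2 * (H : ℝ) / p) * ∑ b ∈ range p, g b := by
  rw [← sum_fiberwise_of_maps_to (s := blk H i) (t := range p) (g := fun n => 2 * n % p)
    (fun n _ => mem_range.2 (Nat.mod_lt _ hp.pos)), mul_sum]
  refine sum_le_sum fun b _ => ?_
  have h1 : ∑ n ∈ (blk H i).filter (fun n => 2 * n % p = b), g (2 * n % p) =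
      (((blk H i).filter (fun n => 2 * n % p = b)).card : ℝ) * g b := by
    rw [← nsmul_eq_mul, ← sum_const]
    refine sum_congr rfl fun n hn => ?_
    rw [(mem_filter.1 hn).2]
  rw [h1]
  refine mul_le_mul_of_nonneg_right ?_ (hg b)
  have hp0 : (0 : ℝ) < p := by exact_mod_cast hp.pos
  have h3 : (((blk H i).filter (fun n => 2 * n % p = b)).card : ℝ) ≤ ((H / p : ℕ) : ℝ) + 1 := by
    exact_mod_cast MainVar_card H i p b hp h2
  have h4 : ((H / p : ℕ) : ℝ) ≤ (H : ℝ) / p := Nat.cast_div_le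
  have h5 : (1 : ℝ) ≤ (H : ℝ) / p := by
    rw [le_div_iff₀ hp0, one_mul]
    exact_mod_cast hpH
  have h6 : 2 * (H : ℝ) / p = (H : ℝ) / p + (H : ℝ) / p := by ring
  rw [h6]
  linarith

theorem main_var (P H i : ℕ) (a : ℕ → ℂ) (hP : 2 ≤ P) (hi : 1 ≤ i) (hPH : 4 * P ^ 2 ≤ H) :
    ∑ n ∈ blk H i, (∑ p ∈ pb P,
        ‖Zc a H i p (2 * n) - (1 / (p : ℂ)) * ∑ m ∈ blk H i, a m‖) ^ 2
      ≤ 10 * (H : ℝ) ^ 2 / P * ∑ m ∈ blk H i, ‖a m‖ ^ 2 := by
  have hH1 : 1 ≤ H := by nlinarith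
  have hPr : (2 : ℝ) ≤ P := by exact_mod_cast hP
  have hHr : 4 * (P : ℝ) ^ 2 ≤ H := by exact_mod_cast hPH
  have hcard : ((pb P).card : ℝ) ≤ P := by
    have h1 : (pb P).card ≤ (Ioc P (2 * P)).card := card_filter_le _ _
    rw [Nat.card_Ioc] at h1
    have h2 : (pb P).card ≤ P := by omega
    exact_mod_cast h2
  set S : ℝ := ∑ m ∈ blk H i, ‖a m‖ ^ 2 with hS
  have hS0 : 0 ≤ S := sum_nonneg fun _ _ => by positivity
  have hcv := cls_var P H i a (by omega) hi hH1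
  rw [← hS] at hcv
  set X : ℕ → ℕ → ℝ := fun p b => ‖Zc a H i p b - (1 / (p : ℂ)) * ∑ m ∈ blk H i, a m‖ ^ 2 with hX
  have h1 : ∀ n ∈ blk H i, (∑ p ∈ pb P,
        ‖Zc a H i p (2 * n) - (1 / (p : ℂ)) * ∑ m ∈ blk H i, a m‖) ^ 2 ≤ P * ∑ p ∈ pb P, X p (2 * n % p) := by
    intro n _
    have h2 := sq_sum_le_card_mul_sum_sq (s := pb P)
      (f := fun p => ‖Zc a H i p (2 * n) - (1 / (p : ℂ)) * ∑ m ∈ blk H i, a m‖)
    have h3 : ∑ p ∈ pb P, ‖Zc a H i p (2 * n) - (1 / (p : ℂ)) * ∑ m ∈ blk H i, a m‖ ^ 2 = ∑ p ∈ pb P, X p (2 * n % p) := by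
      refine sum_congr rfl fun p _ => ?_
      rw [hX, MainVar_mod]
    rw [h3] at h2
    refine h2.trans ?_
    exact mul_le_mul_of_nonneg_right hcard (sum_nonneg fun _ _ => by rw [hX]; positivity)
  refine (sum_le_sum h1).trans ?_
  rw [← mul_sum, sum_comm]
  have h4 : ∀ p ∈ pb P, ∑ n ∈ blk H i, X p (2 * n % p) ≤ (2 * (H : ℝ) / P ^ 2) * (p * ∑ b ∈ range p, X p b) := by
    intro p hp
    have hp1 := mem_filter.1 hp
    have hp2 := mem_Ioc.1 hp1.1
    have hpH : p ≤ H := by nlinarith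
    have hpr : (P : ℝ) ≤ p := by exact_mod_cast hp2.1.le
    have hp0 : (0 : ℝ) < p := by linarith
    have h5 := MainVar_prime H i p hp1.2 (by omega) hpH (X p) (fun b => by rw [hX]; positivity)
    refine h5.trans ?_
    have h6 : 0 ≤ ∑ b ∈ range p, X p b := sum_nonneg fun _ _ => by rw [hX]; positivity
    rw [← mul_assoc]
    refine mul_le_mul_of_nonneg_right ?_ h6
    have hP0 : (0 : ℝ) < P := by linarith
    rw [div_mul_eq_mul_div, div_le_div_iff₀ hp0 (by positivity)]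
    have h7 : (P : ℝ) ^ 2 ≤ p * p := by nlinarith
    have h8 : (0 : ℝ) ≤ 2 * H := by positivity
    calc 2 * (H : ℝ) * P ^ 2 ≤ 2 * H * (p * p) := mul_le_mul_of_nonneg_left h7 h8
      _ = 2 * H * p * p := by ring
  have h9 := sum_le_sum h4
  rw [← mul_sum] at h9
  have hP0 : (0 : ℝ) < P := by linarith
  have h10 : (P : ℝ) * ∑ p ∈ pb P, ∑ n ∈ blk H i, X p (2 * n % p) ≤
      P * ((2 * (H : ℝ) / P ^ 2) * ((4 * (P : ℝ) ^ 2 + Real.pi * H) * S)) := by
    refine mul_le_mul_of_nonneg_left (h9.trans ?_) hP0.le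
    exact mul_le_mul_of_nonneg_left hcv (by positivity)
  refine h10.trans ?_
  have hpi : Real.pi ≤ 4 := Real.pi_le_four
  have hH0 : (0 : ℝ) ≤ H := Nat.cast_nonneg H
  have h11 : (4 * (P : ℝ) ^ 2 + Real.pi * H) ≤ 5 * H := by nlinarith
  have h12 : (4 * (P : ℝ) ^ 2 + Real.pi * H) * S ≤ 5 * H * S := mul_le_mul_of_nonneg_right h11 hS0
  calc (P : ℝ) * ((2 * (H : ℝ) / P ^ 2) * ((4 * (P : ℝ) ^ 2 + Real.pi * H) * S))
      ≤ P * ((2 * (H : ℝ) / P ^ 2) * (5 * H * S)) := by gcongr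
    _ = 10 * (H : ℝ) ^ 2 / P * S := by
        field_simp
        ring

end Pool.Agent.H43.MP
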