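import Pool.Agent.H43.MP.Lnk

/-!
# MIDP Res: the theorem in the form of the hand-in
-/

set_option autoImplicit false

namespace Pool.Agent.H43.MP

open Finset

/-- The integers `x` with `|x| ≤ N^θ` such that `φ(n-x)+1 = n-x` (`n-x` is prime) and `n+x = p q` with primes `p, q`,
`N^(θ/20) < p ≤ 2 N^(θ/20)`. -/
def solR (θ : ℝ) (N n : ℕ) : Set ℤ :=
  {x : ℤ | |(x : ℝ)| ≤ (N : ℝ) ^ θ ∧ 0 < (n : ℤ) - x ∧ 0 < (n : ℤ) + x ∧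
    ((Nat.totient ((n : ℤ) - x).toNat : ℤ) + 1 = (n : ℤ) - x) ∧
    ∃ p q : ℕ, p.Prime ∧ q.Prime ∧ (N : ℝ) ^ (θ / 20) < p ∧ (p : ℝ) ≤ 2 * (N : ℝ) ^ (θ / 20) ∧
      (n : ℤ) + x = p * q}

theorem solR_finite (θ : ℝ) (N n : ℕ) : (solR θ N n).Finite := by
  refine Set.Finite.subset (Set.finite_Icc (-⌈(N : ℝ) ^ θ⌉) ⌈(N : ℝ) ^ θ⌉) ?_
  rintro x ⟨hx, -⟩
  rw [abs_le] at hx
  have h1 := Int.le_ceil ((N : ℝ) ^ θ)
  rw [Set.mem_Icc]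
  constructor
  · have : ((-⌈(N : ℝ) ^ θ⌉ : ℤ) : ℝ) ≤ (x : ℝ) := by
      push_cast
      linarith [hx.1]
    exact_mod_cast this
  · have : (x : ℝ) ≤ ((⌈(N : ℝ) ^ θ⌉ : ℤ) : ℝ) := by linarith [hx.2]
    exact_mod_cast this

theorem sols_sub (θ : ℝ) (N n : ℕ) : sols (Pn θ N) (Hn θ N) n ⊆ solR θ N n := by
  rintro x ⟨h1, h2, h3, h4, p, q, hp, hq, h5, h6, h7⟩
  refine ⟨?_, h2, h3, h4, p, q, hp, hq, ?_, ?_, h7⟩
  · have h8 : (Hn θ N : ℝ) ≤ (N : ℝ) ^ θ := Nat.floor_le (by positivity)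
    have h9 : ((|x| : ℤ) : ℝ) ≤ ((Hn θ N : ℤ) : ℝ) := by exact_mod_cast h1
    push_cast at h9
    exact h9.trans h8
  · have h8 : (N : ℝ) ^ (θ / 20) < Pn θ N + 1 := Nat.lt_floor_add_one _
    have h9 : ((Pn θ N : ℕ) : ℝ) + 1 ≤ p := by exact_mod_cast h5
    linarith
  · have h8 : (Pn θ N : ℝ) ≤ (N : ℝ) ^ (θ / 20) := Nat.floor_le (by positivity)
    have h9 : (p : ℝ) ≤ 2 * (Pn θ N : ℝ) := by exact_mod_cast h6
    linarith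

/-- the theorem of the hand-in, from the two black boxes -/
theorem midp_res (hl : LFUP) (hx : ∀ θ' : ℝ, 1 / 6 < θ' → HUX θ') (θ : ℝ) (h1 : 1 / 6 < θ)
    (h2 : θ ≤ 1 / 4) (A : ℕ) : ∃ N0 : ℕ, ∀ N : ℕ, N0 ≤ N →
      ({n : ℕ | N < n ∧ n ≤ 2 * N ∧
        ((solR θ N n).ncard : ℝ) < (N : ℝ) ^ θ / (10 * Real.log N ^ 3)}.ncard : ℝ)
      ≤ N / Real.log N ^ A := by
  classical
  obtain ⟨N0, h⟩ := midp_link hl hx θ h1 h2 A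
  refine ⟨N0, fun N hN => ?_⟩
  refine le_trans ?_ (h N hN)
  have hsub : {n : ℕ | N < n ∧ n ≤ 2 * N ∧
        ((solR θ N n).ncard : ℝ) < (N : ℝ) ^ θ / (10 * Real.log N ^ 3)} ⊆
      (((Ioc N (2 * N)).filter (fun n =>
        ((sols (Pn θ N) (Hn θ N) n).ncard : ℝ) < (N : ℝ) ^ θ / (10 * Real.log N ^ 3)) : Finset ℕ) : Set ℕ) := by
    rintro n ⟨ha, hb, hc⟩
    rw [Finset.mem_coe, mem_filter, mem_Ioc]
    refine ⟨⟨ha, hb⟩, lt_of_le_of_lt ?_ hc⟩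
    exact_mod_cast Set.ncard_le_ncard (sols_sub θ N n) (solR_finite θ N n)
  have := Set.ncard_le_ncard hsub (Finset.finite_toSet _)
  rw [Set.ncard_coe_finset] at this
  exact_mod_cast this

end Pool.Agent.H43.MP
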