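import Pool.Agent.H43.MP.Defs
import Pool.Agent.H76.SP.LamD

/-!
# MIDP Split: `FF = Fs + Λ_R · omP`

`Λ_R(m/p) = Λ_R(m)` because all `r ≤ R ≤ P < p` are prime to `p` (`lamR_mul`).
-/

set_option autoImplicit false

namespace Pool.Agent.H43.MP

open Finset
open Pool.Agent.H91.PK (ee)
open Pool.Agent.H91.EHA (Lam hR lamR ramS)
open Pool.Agent.H35.W (pb)

theorem FF_split (P R m : ℕ) (hRP : R ≤ P) :
    FF P m = Fs P R m + lamR R m * omP P m := by
  unfold FF Fs omP
  rw [card_eq_sum_ones, Nat.cast_sum, mul_sum, ← sum_add_distrib]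
  refine sum_congr rfl fun p hp => ?_
  obtain ⟨h1, h2⟩ := mem_filter.1 hp
  have h3 : p.Prime ∧ P < p := by
    unfold pb at h1
    rw [mem_filter, mem_Ioc] at h1
    exact ⟨h1.2, h1.1.1⟩
  have h4 := Pool.Agent.H76.SP.lamR_mul R p (m / p) h3.1 (by omega)
  rw [Nat.mul_div_cancel' h2] at h4
  rw [h4]
  unfold hR
  push_cast
  ring

theorem rr_split (P R H i n : ℕ) (hRP : R ≤ P) :
    rr P H i n = rs P R H i n + rm P R H i n := by
  unfold rr rs rm
  rw [← sum_add_distrib]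
  refine sum_congr rfl fun m _ => ?_
  rw [FF_split P R _ hRP]
  ring

end Pool.Agent.H43.MP
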